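import Pool.Agent.Lib_helper32.InvC.Flat

/-!
Almost every point of the zero set of a smooth function is a zero of infinite order.
-/

set_option autoImplicit false

namespace InvC

open Set Filter Topology MeasureTheory Asymptotics
open scoped RealInnerProductSpace ContDiff Gradient NNReal

section General

variable {E : Type} [NormedAddCommGroup E] [NormedSpace ℝ E] [FiniteDimensional ℝ E]
  [MeasurableSpace E] [BorelSpace E] (μ : Measure E) [μ.IsAddHaarMeasure]

theorem measurableSet_zero {F : Type*} [NormedAddCommGroup F] {V : Set E} (hV : IsOpen V)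
    {g : E → F} (hg : ContinuousOn g V) : MeasurableSet {q ∈ V | g q = 0} := by
  obtain ⟨u, hu, hu'⟩ := (continuousOn_iff_isClosed.1 hg) {0} isClosed_singleton
  have : {q ∈ V | g q = 0} = u ∩ V := by
    rw [← hu']
    ext q
    simp [and_comm]
  rw [this]
  exact hu.measurableSet.inter hV.measurableSet

theorem ae_fderiv_zero_restrict {F : Type*} [NormedAddCommGroup F] [NormedSpace ℝ F]
    [FiniteDimensional ℝ F] {s : Set E} (hs : MeasurableSet s) {g : E → F}
    (hg : ∀ x ∈ s, g x = 0) (hd : ∀ x ∈ s, DifferentiableAt ℝ g x) :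
    ∀ᵐ x ∂μ.restrict s, fderiv ℝ g x = 0 := by
  by_cases hE : ∃ e : E, e ≠ 0
  swap
  · push Not at hE
    refine Eventually.of_forall fun x => ?_
    ext ξ
    rw [hE ξ]
    simp
  obtain ⟨e, he⟩ := hE
  set b := Module.finBasis ℝ F with hb
  have hφ : ∀ i, ∀ᵐ x ∂μ.restrict s, ∀ ξ, b.coord i (fderiv ℝ g x ξ) = 0 := by
    intro i
    set φ : F →L[ℝ] ℝ := LinearMap.toContinuousLinearMap (b.coord i) with hφ
    set f : E → E := fun x => (φ (g x)) • e with hf
    set f' : E → E →L[ℝ] E := fun x => (φ.comp (fderiv ℝ g x)).smulRight e with hf'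
    have h1 : ApproximatesLinearOn f (0 : E →L[ℝ] E) s (0 : ℝ≥0) := by
      intro x hx y hy
      simp [hf, hg x hx, hg y hy]
    have h2 : ∀ x ∈ s, HasFDerivWithinAt f (f' x) s x := by
      intro x hx
      have h3 : HasFDerivAt (fun x => φ (g x)) (φ.comp (fderiv ℝ g x)) x :=
        φ.hasFDerivAt.comp x (hd x hx).hasFDerivAt
      exact (h3.smul_const e).hasFDerivWithinAt
    filter_upwards [h1.norm_fderiv_sub_le μ hs f' h2] with x hx ξ
    have h4 : f' x = 0 := by
      have : ‖f' x - 0‖₊ = 0 := le_antisymm hx zero_le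
      simpa using this
    have h5 : f' x ξ = 0 := by rw [h4]; simp
    have h6 : φ (fderiv ℝ g x ξ) • e = 0 := by simpa [hf'] using h5
    exact (smul_eq_zero.1 h6).resolve_right he
  filter_upwards [ae_all_iff.2 hφ] with x hx
  ext ξ
  have : fderiv ℝ g x ξ = 0 := by
    apply b.ext_elem
    intro i
    simpa using hx i ξ
  simpa using this

/-- almost everywhere on the zero set of a smooth function its derivative is zero -/
theorem null_fderiv {F : Type*} [NormedAddCommGroup F] [NormedSpace ℝ F]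
    [FiniteDimensional ℝ F] {V : Set E} (hV : IsOpen V) {g : E → F} (hg : ContDiffOn ℝ ∞ g V) :
    μ {q ∈ V | g q = 0 ∧ fderiv ℝ g q ≠ 0} = 0 := by
  have hs := measurableSet_zero hV hg.continuousOn
  have h := ae_fderiv_zero_restrict μ hs (g := g) (fun x hx => hx.2)
    (fun x hx => (hg.contDiffAt (hV.mem_nhds hx.1)).differentiableAt (by simp))
  rw [ae_restrict_iff' hs] at h
  rw [ae_iff] at h
  refine measure_mono_null (fun q hq => ?_) h
  obtain ⟨h1, h2, h3⟩ := hq
  simp only [mem_setOf_eq, not_forall]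
  exact ⟨⟨h1, h2⟩, h3⟩

theorem null_not_isBigO (m : ℕ) : ∀ {F : Type} [NormedAddCommGroup F] [NormedSpace ℝ F]
    [FiniteDimensional ℝ F] {V : Set E} (_ : IsOpen V) {g : E → F} (_ : ContDiffOn ℝ ∞ g V),
    μ {q ∈ V | g q = 0 ∧ ¬ g =O[𝓝 q] fun y => ‖y - q‖ ^ m} = 0 := by
  induction m with
  | zero =>
    intro F _ _ _ V hV g hg
    convert measure_empty (μ := μ)
    rw [eq_empty_iff_forall_notMem]
    rintro q ⟨h1, h2, h3⟩
    apply h3
    have := (hg.continuousOn.continuousAt (hV.mem_nhds h1)).isBigO_one ℝ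
    simpa using this
  | succ m ih =>
    intro F _ _ _ V hV g hg
    have h1 := null_fderiv μ hV hg
    have hg' : ContDiffOn ℝ ∞ (fderiv ℝ g) V := hg.fderiv_of_isOpen hV (by simp)
    have h2 := ih hV hg'
    refine measure_mono_null ?_ (measure_union_null h1 h2)
    rintro q ⟨hq, h0, h3⟩
    by_cases h4 : fderiv ℝ g q = 0
    · right
      refine ⟨hq, h4, fun h5 => h3 ?_⟩
      have h6 : ∀ᶠ y in 𝓝 q, DifferentiableAt ℝ g y := by
        filter_upwards [hV.mem_nhds hq] with y hy
        exact (hg.contDiffAt (hV.mem_nhds hy)).differentiableAt (by simp)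
      have h7 := isBigO_succ_of_fderiv h6 h5
      simpa [h0] using h7
    · left
      exact ⟨hq, h0, h4⟩

/-- almost every point of the zero set of a smooth function is a zero of infinite order -/
theorem null_not_flat {F : Type} [NormedAddCommGroup F] [NormedSpace ℝ F]
    [FiniteDimensional ℝ F] {V : Set E} (hV : IsOpen V) {g : E → F} (hg : ContDiffOn ℝ ∞ g V) :
    μ {q ∈ V | g q = 0 ∧ ¬ Flat g q} = 0 := by
  have h : μ (⋃ m : ℕ, {q ∈ V | g q = 0 ∧ ¬ g =O[𝓝 q] fun y => ‖y - q‖ ^ m}) = 0 :=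
    measure_iUnion_null fun m => null_not_isBigO μ m hV hg
  refine measure_mono_null ?_ h
  rintro q ⟨h1, h2, h3⟩
  simp only [Flat, not_forall] at h3
  obtain ⟨m, hm⟩ := h3
  exact mem_iUnion.2 ⟨m, h1, h2, hm⟩

end General

variable {n : ℕ}

instance instHaarQn : (volume : Measure (Qn n)).IsAddHaarMeasure := by
  change ((volume : Measure (EuclideanSpace ℝ (Fin n))).prod
    (volume : Measure (EuclideanSpace ℝ (Fin n)))).IsAddHaarMeasure
  infer_instance

/-- PART K -/
theorem ae_fderiv_zero {F : Type} [NormedAddCommGroup F] [NormedSpace ℝ F]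
    [FiniteDimensional ℝ F]
    {V : Set (Qn n)} (hV : IsOpen V) {g : Qn n → F} (hg : ContDiffOn ℝ ∞ g V) :
    volume {q ∈ V | g q = 0 ∧ fderiv ℝ g q ≠ 0} = 0 :=
  null_fderiv volume hV hg

end InvC
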