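import Pool.Agent.Lib_helper32.InvC.Implicit

/-!
PART B: the smooth branch of the paths through a word of mirror data.
-/

set_option autoImplicit false

namespace InvC

open Set Filter Topology MeasureTheory Asymptotics
open scoped RealInnerProductSpace ContDiff Gradient

variable {n : ℕ}

/-- a mirror datum: an equation `f` in the convex open set `V`, and an open set `W` of directions
which are transversal to the level sets of `f` in `V` -/
structure Datum (n : ℕ) where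
  f : Vn n → ℝ
  V : Set (Vn n)
  W : Set (Vn n)
  isOpen_V : IsOpen V
  convex_V : Convex ℝ V
  isOpen_W : IsOpen W
  smooth : ContDiffOn ℝ ∞ f V
  trans : ∀ y ∈ V, ∀ w ∈ W, ⟪∇ f y, w⟫ ≠ 0

theorem contDiffOn_gradient {V : Set (Vn n)} (hV : IsOpen V) {f : Vn n → ℝ}
    (hf : ContDiffOn ℝ ∞ f V) : ContDiffOn ℝ ∞ (∇ f) V := by
  have h1 : ContDiffOn ℝ ∞ (fderiv ℝ f) V := hf.fderiv_of_isOpen hV (by simp)
  exact (InnerProductSpace.toDual ℝ (Vn n)).symm.contDiff.comp_contDiffOn h1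

/-- `rho` is smooth (and analytic) where the normal does not vanish -/
theorem contDiffAt_rho {N : WithTop ℕ∞} {u : Vn n × Vn n} (hu : u.1 ≠ 0) :
    ContDiffAt ℝ N (fun u : Vn n × Vn n => rho u.1 u.2) u := by
  unfold rho
  refine contDiffAt_snd.sub (ContDiffAt.fun_smul (ContDiffAt.fun_div ?_ ?_ ?_) contDiffAt_fst)
  · exact contDiffAt_const.mul (contDiffAt_snd.inner ℝ contDiffAt_fst)
  · exact contDiffAt_fst.norm_sq ℝ
  · have : ‖u.1‖ ≠ 0 := norm_ne_zero_iff.2 hu
    positivity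

/-- the reflected state as a function of normal, time and state -/
theorem contDiffAt_stepN {N : WithTop ℕ∞} {u : Vn n × ℝ × Qn n} (hu : u.1 ≠ 0) :
    ContDiffAt ℝ N (fun u : Vn n × ℝ × Qn n => stepN u.1 u.2.1 u.2.2) u := by
  unfold stepN
  have h1 : ContDiffAt ℝ N (fun u : Vn n × ℝ × Qn n => rho u.1 u.2.2.2) u := by
    have h2 : ContDiffAt ℝ N (fun u : Vn n × ℝ × Qn n => (u.1, u.2.2.2)) u := by fun_prop
    exact ContDiffAt.comp (g := fun u : Vn n × Vn n => rho u.1 u.2) u (contDiffAt_rho hu) h2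
  have h3 : ContDiffAt ℝ N (fun u : Vn n × ℝ × Qn n => pos u.2.1 u.2.2) u := by
    unfold pos
    fun_prop
  have h4 : ContDiffAt ℝ N (fun u : Vn n × ℝ × Qn n => u.2.1) u := by fun_prop
  exact (h3.sub (h4.fun_smul h1)).prodMk h1

theorem hasDerivAt_along {f : Vn n → ℝ} {ℓ : Qn n} {s : ℝ}
    (hf : DifferentiableAt ℝ f (pos s ℓ)) :
    HasDerivAt (fun s => f (pos s ℓ)) ⟪∇ f (pos s ℓ), ℓ.2⟫ s := by
  have h1 : HasDerivAt (fun s : ℝ => pos s ℓ) ℓ.2 s := by
    unfold pos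
    have := ((hasDerivAt_id s).smul_const ℓ.2).const_add ℓ.1
    simpa using this
  have h2 := hf.hasFDerivAt.comp_hasDerivAt s h1
  rw [inner_gradient_left]
  exact h2

/-- the time at which a transversal line meets a level set in a convex set is unique -/
theorem Datum.unique (D : Datum n) {ℓ : Qn n} {s s' : ℝ} (h1 : pos s ℓ ∈ D.V)
    (h2 : pos s' ℓ ∈ D.V) (hW : ℓ.2 ∈ D.W) (h3 : D.f (pos s ℓ) = 0) (h4 : D.f (pos s' ℓ) = 0) :
    s = s' := by
  by_contra hne
  wlog hlt : s < s' generalizing s s'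
  · exact this h2 h1 h4 h3 (Ne.symm hne) (lt_of_le_of_ne (not_lt.1 hlt) (Ne.symm hne))
  have hmem : ∀ t ∈ Icc s s', pos t ℓ ∈ D.V := by
    intro t ht
    have h5 : pos t ℓ = ((s' - t) / (s' - s)) • pos s ℓ + ((t - s) / (s' - s)) • pos s' ℓ := by
      have h6 : s' - s ≠ 0 := by
        have := sub_pos.2 hlt
        exact this.ne'
      unfold pos
      have h7 : ((s' - t) / (s' - s)) + ((t - s) / (s' - s)) = 1 := by field_simp; ring
      have h8 : ((s' - t) / (s' - s)) * s + ((t - s) / (s' - s)) * s' = t := by field_simp; ring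
      calc ℓ.1 + t • ℓ.2
          = (((s' - t) / (s' - s)) + ((t - s) / (s' - s))) • ℓ.1 +
            (((s' - t) / (s' - s)) * s + ((t - s) / (s' - s)) * s') • ℓ.2 := by
              rw [h7, h8, one_smul]
        _ = _ := by module
    rw [h5]
    have h9 : 0 < s' - s := sub_pos.2 hlt
    refine D.convex_V h1 h2 (div_nonneg (by linarith [ht.2]) h9.le)
      (div_nonneg (by linarith [ht.1]) h9.le) ?_
    field_simp
    ring
  have hd : ∀ t ∈ Icc s s', HasDerivAt (fun t => D.f (pos t ℓ)) ⟪∇ D.f (pos t ℓ), ℓ.2⟫ t :=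
    fun t ht => hasDerivAt_along
      ((D.smooth.contDiffAt (D.isOpen_V.mem_nhds (hmem t ht))).differentiableAt (by simp))
  obtain ⟨c, hc, hc'⟩ := exists_hasDerivAt_eq_zero hlt
    (fun t ht => (hd t ht).continuousAt.continuousWithinAt) (by rw [h3, h4])
    (fun t ht => hd t (Ioo_subset_Icc_self ht))
  exact D.trans _ (hmem c (Ioo_subset_Icc_self hc)) _ hW hc'

/-- the extension of a branch by one more mirror -/
theorem Branch.extend {S : Set (Vn n)} {V : Set (Qn n)} {k : ℕ} {W : ℕ → Set (Vn n)}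
    {f : ℕ → Vn n → ℝ} {L : ℕ → Qn n → Qn n} {τ : ℕ → Qn n → ℝ} (h : Branch S V k W f L τ)
    (D : Datum n) (hS : LocalEq S D.V D.f) (hW : W k = D.V) (hf : f k = D.f) :
    ∃ (V' : Set (Qn n)) (L' : ℕ → Qn n → Qn n) (τ' : ℕ → Qn n → ℝ),
      Branch S V' (k + 1) W f L' τ' ∧ V' ⊆ V ∧ (∀ i ≤ k, L' i = L i) ∧ (∀ i < k, τ' i = τ i) ∧
      ∀ q ∈ V, ∀ s, pos s (L k q) ∈ D.V → (L k q).2 ∈ D.W → D.f (pos s (L k q)) = 0 →
        q ∈ V' ∧ s = τ' k q ∧ L' (k + 1) q = step D.f s (L k q) := by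
  classical
  set E : Set (Qn n × ℝ) := {u | u.1 ∈ V ∧ pos u.2 (L k u.1) ∈ D.V ∧ (L k u.1).2 ∈ D.W} with hE
  set F : Qn n × ℝ → ℝ := fun u => D.f (pos u.2 (L k u.1)) with hF
  have hLk := h.smoothL k le_rfl
  have hc1 : ContDiffOn ℝ ∞ (fun u : Qn n × ℝ => L k u.1) (V ×ˢ univ) :=
    hLk.comp contDiffOn_fst (fun u hu => hu.1)
  have hc2 : ContDiffOn ℝ ∞ (fun u : Qn n × ℝ => pos u.2 (L k u.1)) (V ×ˢ univ) :=
    (contDiff_pos (N := ∞)).comp_contDiffOn (hc1.prodMk contDiffOn_snd)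
  have hVo : IsOpen (V ×ˢ (univ : Set ℝ)) := h.isOpen.prod isOpen_univ
  have hEo : IsOpen E := by
    have h1 : E = ((V ×ˢ univ) ∩ (fun u : Qn n × ℝ => pos u.2 (L k u.1)) ⁻¹' D.V) ∩
        ((V ×ˢ univ) ∩ (fun u : Qn n × ℝ => (L k u.1).2) ⁻¹' D.W) := by
      ext u
      simp [hE]
      tauto
    rw [h1]
    refine (hc2.continuousOn.isOpen_inter_preimage hVo D.isOpen_V).inter ?_
    exact (continuous_snd.comp_continuousOn hc1.continuousOn).isOpen_inter_preimage hVo
      D.isOpen_W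
  have hFs : ContDiffOn ℝ ∞ F E :=
    D.smooth.comp (hc2.mono fun u hu => ⟨hu.1, mem_univ _⟩) (fun u hu => hu.2.1)
  have hF' : ∀ u ∈ E, fderiv ℝ F u (0, 1) ≠ 0 := by
    rintro ⟨q, s⟩ hu
    have hd : DifferentiableAt ℝ F (q, s) :=
      (hFs.contDiffAt (hEo.mem_nhds hu)).differentiableAt (by simp)
    have h1 : HasDerivAt (fun t : ℝ => ((q, t) : Qn n × ℝ)) (0, 1) s :=
      (hasDerivAt_const s q).prodMk (hasDerivAt_id s)
    have h2 : HasDerivAt (fun t => F (q, t)) (fderiv ℝ F (q, s) (0, 1)) s :=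
      hd.hasFDerivAt.comp_hasDerivAt s h1
    have h3 : HasDerivAt (fun t => F (q, t)) ⟪∇ D.f (pos s (L k q)), (L k q).2⟫ s :=
      hasDerivAt_along ((D.smooth.contDiffAt (D.isOpen_V.mem_nhds hu.2.1)).differentiableAt
        (by simp))
    rw [h2.unique h3]
    exact D.trans _ hu.2.1 _ hu.2.2
  obtain ⟨hVo', τk, hτs, hτu⟩ := unique_root_smooth (by simp) hEo hFs hF'
    (fun q s s' h1 h2 h3 h4 => D.unique h1.2.1 h2.2.1 h1.2.2 h3 h4)
  set V' : Set (Qn n) := {q | ∃ s, (q, s) ∈ E ∧ F (q, s) = 0} with hV'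
  have hV'V : V' ⊆ V := by
    rintro q ⟨s, hs, -⟩
    exact hs.1
  have hτ' : ∀ q ∈ V', (q, τk q) ∈ E ∧ F (q, τk q) = 0 := by
    rintro q ⟨s, h1, h2⟩
    rw [← hτu q s h1 h2]
    exact ⟨h1, h2⟩
  have hpos : ContDiffOn ℝ ∞ (fun q => pos (τk q) (L k q)) V' :=
    (contDiff_pos (N := ∞)).comp_contDiffOn ((hLk.mono hV'V).prodMk hτs)
  have hgrad : ContDiffOn ℝ ∞ (fun q => ∇ D.f (pos (τk q) (L k q))) V' :=
    (contDiffOn_gradient D.isOpen_V D.smooth).comp hpos fun q hq => (hτ' q hq).1.2.1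
  have hnew : ContDiffOn ℝ ∞ (fun q => step D.f (τk q) (L k q)) V' := by
    intro q hq
    have h1 : ContDiffWithinAt ℝ ∞
        (fun q => (∇ D.f (pos (τk q) (L k q)), τk q, L k q)) V' q :=
      (hgrad q hq).prodMk ((hτs q hq).prodMk ((hLk.mono hV'V) q hq))
    have h2 : ContDiffAt ℝ ∞ (fun u : Vn n × ℝ × Qn n => stepN u.1 u.2.1 u.2.2)
        (∇ D.f (pos (τk q) (L k q)), τk q, L k q) :=
      contDiffAt_stepN (hS.regular _ (hτ' q hq).1.2.1)
    exact ContDiffAt.comp_contDiffWithinAt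
      (g := fun u : Vn n × ℝ × Qn n => stepN u.1 u.2.1 u.2.2) q h2 h1
  refine ⟨V', fun i => if i ≤ k then L i else fun q => step D.f (τk q) (L k q),
    fun i => if i < k then τ i else τk, ?_, hV'V, fun i hi => if_pos hi, fun i hi => if_pos hi, ?_⟩
  · refine ⟨hVo', ?_, ?_, ?_, ?_, ?_, ?_, ?_, ?_⟩
    · intro i hi
      rcases Nat.lt_succ_iff_lt_or_eq.1 hi with h1 | h1
      · exact h.eqn i h1
      · subst h1
        rw [hW, hf]
        exact hS
    · intro q hq
      simp only [Nat.zero_le, if_true]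
      exact h.start q (hV'V hq)
    · intro i hi
      rcases Nat.le_succ_iff.1 hi with h1 | h1
      · simp only [h1, if_true]
        exact (h.smoothL i h1).mono hV'V
      · subst h1
        simp only [Nat.succ_eq_add_one, Nat.not_succ_le_self, if_false]
        exact hnew
    · intro i hi
      rcases Nat.lt_succ_iff_lt_or_eq.1 hi with h1 | h1
      · simp only [h1, if_true]
        exact (h.smoothT i h1).mono hV'V
      · subst h1
        simp only [lt_irrefl, if_false]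
        exact hτs
    · intro i hi q hq
      rcases Nat.lt_succ_iff_lt_or_eq.1 hi with h1 | h1
      · simp only [h1, h1.le, if_true]
        exact h.mem i h1 q (hV'V hq)
      · subst h1
        simp only [lt_irrefl, le_refl, if_false, if_true]
        rw [hW]
        exact (hτ' q hq).1.2.1
    · intro i hi q hq
      rcases Nat.lt_succ_iff_lt_or_eq.1 hi with h1 | h1
      · simp only [h1, h1.le, if_true]
        exact h.hit i h1 q (hV'V hq)
      · subst h1
        simp only [lt_irrefl, le_refl, if_false, if_true]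
        rw [hf]
        exact (hτ' q hq).2
    · intro i hi q hq
      rcases Nat.lt_succ_iff_lt_or_eq.1 hi with h1 | h1
      · simp only [h1, h1.le, if_true]
        exact h.trans i h1 q (hV'V hq)
      · subst h1
        simp only [lt_irrefl, le_refl, if_false, if_true]
        rw [hf]
        exact D.trans _ (hτ' q hq).1.2.1 _ (hτ' q hq).1.2.2
    · intro i hi q hq
      rcases Nat.lt_succ_iff_lt_or_eq.1 hi with h1 | h1
      · have h2 : i + 1 ≤ k := h1
        simp only [h1, h1.le, h2, if_true]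
        exact h.next i h1 q (hV'V hq)
      · subst h1
        simp only [lt_irrefl, le_refl, if_false, if_true, Nat.not_succ_le_self]
        rw [hf]
  · intro q hq s h1 h2 h3
    have h4 : (q, s) ∈ E := ⟨hq, h1, h2⟩
    have h5 := hτu q s h4 h3
    refine ⟨⟨s, h4, h3⟩, ?_, ?_⟩
    · simpa using h5
    · simp only [Nat.not_succ_le_self, if_false]
      rw [← h5]

/-- PART B: the smooth branch of the paths through a word of mirror data -/
theorem word_branch (S : Set (Vn n)) (k : ℕ) (D : ℕ → Datum n)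
    (hS : ∀ i < k, LocalEq S (D i).V (D i).f) :
    ∃ (V : Set (Qn n)) (L : ℕ → Qn n → Qn n) (τ : ℕ → Qn n → ℝ),
      Branch S V k (fun i => (D i).V) (fun i => (D i).f) L τ ∧
      ∀ (T : ℕ → ℝ) (ℓ : ℕ → Qn n),
        (∀ i < k, pos (T i) (ℓ i) ∈ (D i).V ∧ (ℓ i).2 ∈ (D i).W ∧
          (D i).f (pos (T i) (ℓ i)) = 0 ∧ ℓ (i + 1) = step (D i).f (T i) (ℓ i)) →
        ℓ 0 ∈ V ∧ (∀ i < k, T i = τ i (ℓ 0)) ∧ ∀ i ≤ k, ℓ i = L i (ℓ 0) := by
  induction k with
  | zero =>
    refine ⟨univ, fun _ q => q, fun _ _ => 0, ?_, ?_⟩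
    · refine ⟨isOpen_univ, ?_, fun q _ => rfl, fun i _ => contDiffOn_id, ?_, ?_, ?_, ?_, ?_⟩
      all_goals
        intro i hi
        exact absurd hi (Nat.not_lt_zero i)
    · intro T ℓ _
      refine ⟨mem_univ _, fun i hi => absurd hi (Nat.not_lt_zero i), fun i hi => ?_⟩
      rw [Nat.le_zero.1 hi]
  | succ k ih =>
    obtain ⟨V, L, τ, hB, hu⟩ := ih fun i hi => hS i (Nat.lt_succ_of_lt hi)
    obtain ⟨V', L', τ', hB', hVV, hL', hτ', hnew⟩ :=
      hB.extend (D k) (hS k (Nat.lt_succ_self k)) rfl rfl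
    refine ⟨V', L', τ', hB', ?_⟩
    intro T ℓ hℓ
    obtain ⟨h1, h2, h3⟩ := hu T ℓ fun i hi => hℓ i (Nat.lt_succ_of_lt hi)
    obtain ⟨h4, h5, h6, h7⟩ := hℓ k (Nat.lt_succ_self k)
    have h8 := h3 k le_rfl
    obtain ⟨h9, h10, h11⟩ := hnew (ℓ 0) h1 (T k) (by rwa [← h8]) (by rwa [← h8]) (by rwa [← h8])
    refine ⟨h9, ?_, ?_⟩
    · intro i hi
      rcases Nat.lt_succ_iff_lt_or_eq.1 hi with h | h
      · rw [hτ' i h]
        exact h2 i h
      · subst h
        exact h10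
    · intro i hi
      rcases Nat.le_succ_iff.1 hi with h | h
      · rw [hL' i h]
        exact h3 i h
      · subst h
        rw [Nat.succ_eq_add_one, h7, h8]
        exact h11.symm

end InvC
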