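import Pool.Agent.Lib_helper32.InvC.Defs

/-!
Functions which vanish to infinite order at a point.
-/

set_option autoImplicit false

namespace InvC

open Set Filter Topology MeasureTheory Asymptotics
open scoped RealInnerProductSpace ContDiff Gradient

section Basic

variable {E F G : Type*} [NormedAddCommGroup E] [NormedAddCommGroup F] [NormedAddCommGroup G]

theorem Flat.congr' {u w : E → F} {p : E} (h : Flat u p) (hw : u =ᶠ[𝓝 p] w) : Flat w p :=
  fun m => (h m).congr' hw (EventuallyEq.refl _ _)

theorem Flat.add {u w : E → F} {p : E} (hu : Flat u p) (hw : Flat w p) :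
    Flat (fun q => u q + w q) p := fun m => (hu m).add (hw m)

theorem Flat.neg {u : E → F} {p : E} (hu : Flat u p) : Flat (fun q => -u q) p :=
  fun m => (hu m).neg_left

theorem Flat.sub {u w : E → F} {p : E} (hu : Flat u p) (hw : Flat w p) :
    Flat (fun q => u q - w q) p := fun m => (hu m).sub (hw m)

theorem Flat.trans_sub {u w z : E → F} {p : E} (hu : Flat (fun q => u q - w q) p)
    (hw : Flat (fun q => w q - z q) p) : Flat (fun q => u q - z q) p := by
  refine (hu.add hw).congr' (Eventually.of_forall fun q => ?_)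
  simp

theorem Flat.prodMk {u : E → F} {w : E → G} {p : E} (hu : Flat u p) (hw : Flat w p) :
    Flat (fun q => (u q, w q)) p := fun m => (hu m).prod_left (hw m)

theorem Flat.of_le {u : E → F} {w : E → G} {p : E} {C : ℝ} (hw : Flat w p)
    (h : ∀ᶠ q in 𝓝 p, ‖u q‖ ≤ C * ‖w q‖) : Flat u p :=
  fun m => (IsBigO.of_bound C h).trans (hw m)

/-- a flat function times a bounded function is flat -/
theorem Flat.of_isBigO {u : E → F} {w : E → G} {p : E} (hw : Flat w p)
    (h : u =O[𝓝 p] w) : Flat u p :=
  fun m => h.trans (hw m)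

variable [NormedSpace ℝ E] [NormedSpace ℝ F] [NormedSpace ℝ G]

/-- composition with a `C¹` function -/
theorem Flat.comp_sub {Φ : F → G} {u w : E → F} {p : E} {z : F} (hΦ : ContDiffAt ℝ 1 Φ z)
    (hu : Tendsto u (𝓝 p) (𝓝 z)) (hw : Tendsto w (𝓝 p) (𝓝 z))
    (h : Flat (fun q => u q - w q) p) : Flat (fun q => Φ (u q) - Φ (w q)) p := by
  obtain ⟨K, t, ht, hK⟩ := hΦ.exists_lipschitzOnWith
  refine h.of_le (C := K) ?_
  filter_upwards [hu ht, hw ht] with q h1 h2
  have := hK.dist_le_mul _ h1 _ h2
  rwa [dist_eq_norm, dist_eq_norm] at this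

/-- `c u` is flat if `u` is flat and `c` continuous -/
theorem Flat.smul {c : E → ℝ} {u : E → F} {p : E} (hc : ContinuousAt c p) (hu : Flat u p) :
    Flat (fun q => c q • u q) p := by
  refine hu.of_isBigO ?_
  have h1 : c =O[𝓝 p] (fun _ => (1 : ℝ)) := hc.isBigO_one ℝ
  simpa using h1.smul (isBigO_refl u (𝓝 p))

/-- the mean value inequality, one order -/
theorem isBigO_succ_of_fderiv {g : E → F} {p : E} (hg : ∀ᶠ q in 𝓝 p, DifferentiableAt ℝ g q)
    {m : ℕ} (h : fderiv ℝ g =O[𝓝 p] fun q => ‖q - p‖ ^ m) :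
    (fun q => g q - g p) =O[𝓝 p] fun q => ‖q - p‖ ^ (m + 1) := by
  obtain ⟨C, hC⟩ := h.bound
  obtain ⟨r, hr, hb⟩ := Metric.eventually_nhds_iff.1 (hC.and hg)
  refine IsBigO.of_bound C ?_
  filter_upwards [Metric.ball_mem_nhds p hr] with q hq
  have hseg : ∀ z ∈ segment ℝ p q, dist z p < r ∧ ‖z - p‖ ≤ ‖q - p‖ := by
    intro z hz
    have h1 : ‖z - p‖ ≤ ‖q - p‖ := by
      obtain ⟨t, ht0, ht1⟩ := (segment_eq_image' ℝ p q ▸ hz : z ∈ _)
      obtain ⟨h0, h1⟩ := ht0
      have : z - p = t • (q - p) := by rw [← ht1]; simp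
      rw [this, norm_smul, Real.norm_of_nonneg h0]
      exact mul_le_of_le_one_left (norm_nonneg _) h1
    refine ⟨?_, h1⟩
    rw [dist_eq_norm]
    rw [Metric.mem_ball, dist_eq_norm] at hq
    exact h1.trans_lt hq
  have hC0 : 0 ≤ C * ‖q - p‖ ^ m := by
    rcases eq_or_ne q p with h0 | h0
    · subst h0
      have := (hb (by simpa using hr : dist q q < r)).1
      have h3 := norm_nonneg (fderiv ℝ g q)
      simp only [norm_pow, norm_norm] at this
      linarith
    · have h2 := (hb hq).1
      have h3 := norm_nonneg (fderiv ℝ g q)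
      simp only [norm_pow, norm_norm] at h2
      linarith
  have hb' : ∀ z ∈ segment ℝ p q, ‖fderiv ℝ g z‖ ≤ C * ‖q - p‖ ^ m := by
    intro z hz
    obtain ⟨h1, h2⟩ := hseg z hz
    have h3 := (hb h1).1
    simp only [norm_pow, norm_norm] at h3
    refine h3.trans ?_
    rcases le_or_gt 0 C with h4 | h4
    · gcongr
    · -- `C < 0` forces everything to be zero
      have h5 : 0 ≤ C * ‖z - p‖ ^ m := (norm_nonneg _).trans h3
      have h6 : ‖z - p‖ ^ m = 0 := by
        have h7 : 0 ≤ ‖z - p‖ ^ m := by positivity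
        nlinarith
      rw [h6]
      simpa using hC0
  have h4 := (convex_segment p q).norm_image_sub_le_of_norm_fderiv_le (𝕜 := ℝ)
    (fun z hz => (hb (hseg z hz).1).2) hb' (left_mem_segment ℝ p q) (right_mem_segment ℝ p q)
  simp only [norm_pow, norm_norm]
  calc ‖g q - g p‖ ≤ C * ‖q - p‖ ^ m * ‖q - p‖ := h4
    _ = C * ‖q - p‖ ^ (m + 1) := by ring

/-- the mean value inequality: if the derivative of `g` is flat at `p` then `g - g p` is flat -/
theorem Flat.of_fderiv {g : E → F} {p : E} (hg : ∀ᶠ q in 𝓝 p, DifferentiableAt ℝ g q)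
    (h : Flat (fderiv ℝ g) p) : Flat (fun q => g q - g p) p := by
  intro m
  rcases m with - | m
  · refine (isBigO_succ_of_fderiv hg (h 0)).trans ?_
    refine ((continuous_norm.comp (continuous_id.sub continuous_const)).continuousAt.isBigO_one
      ℝ : (fun q : E => ‖q - p‖) =O[𝓝 p] _).congr_left ?_ |>.trans ?_
    · intro q; simp
    · simpa using isBigO_refl (fun _ : E => (1 : ℝ)) (𝓝 p)
  · exact isBigO_succ_of_fderiv hg (h m)

/-- an analytic function which is flat at a point vanishes near that point -/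
theorem Flat.eventually_eq_zero {g : E → F} {p : E} (ha : AnalyticAt ℝ g p) (hf : Flat g p) :
    ∀ᶠ q in 𝓝 p, g q = 0 := by
  obtain ⟨P, hP⟩ := ha
  have hf' : ∀ m : ℕ, (fun y => g (p + y)) =O[𝓝 0] fun y => ‖y‖ ^ m := by
    intro m
    have h1 : Tendsto (fun y : E => p + y) (𝓝 0) (𝓝 p) := by
      have : Continuous fun y : E => p + y := by fun_prop
      simpa using this.tendsto 0
    have h2 := (hf m).comp_tendsto h1
    simpa [Function.comp_def] using h2
  have hz : ∀ m : ℕ, ∀ y : E, (P m fun _ => y) = 0 := by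
    intro m
    refine Nat.strong_induction_on m fun k hk => ?_
    have psum_eq : P.partialSum (k + 1) = fun y => P k fun _ => y := by
      funext z
      refine Finset.sum_eq_single _ (fun b hb hnb => ?_) fun hn => ?_
      · have := Finset.mem_range_succ_iff.mp hb
        simp only [hk b (this.lt_of_ne hnb)]
      · exact False.elim (hn (Finset.mem_range.mpr (lt_add_one k)))
    have h1 := hP.isBigO_sub_partialSum_pow (k + 1)
    rw [psum_eq] at h1
    have h2 : (fun y => P k fun _ => y) =O[𝓝 0] fun y => ‖y‖ ^ (k + 1) := by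
      have h3 := (hf' (k + 1)).sub h1
      refine h3.congr_left fun y => ?_
      simp
    exact h2.continuousMultilinearMap_apply_eq_zero
  have h3 := hP.eventually_hasSum_sub
  filter_upwards [h3] with q hq
  have h4 : HasSum (fun _ : ℕ => (0 : F)) (g q) := by
    refine hq.congr_fun ?_ |> fun h => h
    intro m
    simp [hz m (q - p)]
  exact h4.unique hasSum_zero

end Basic

end InvC
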