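import Pool.Agent.Lib_helper32.InvC.BranchB
import Pool.Agent.Lib_helper32.InvC.Flat

/-!
Comparison of the true path with the path of the osculating spheres: one reflection.
-/

set_option autoImplicit false

namespace InvC

open Set Filter Topology MeasureTheory Asymptotics
open scoped RealInnerProductSpace ContDiff Gradient

variable {n : ℕ}

/-- the equation of a sphere or hyperplane -/
noncomputable def sph (κ : ℝ) (b : Vn n) (c : ℝ) (y : Vn n) : ℝ := κ / 2 * ‖y‖ ^ 2 + ⟪b, y⟫ + c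

theorem contDiff_sph {N : WithTop ℕ∞} (κ : ℝ) (b : Vn n) (c : ℝ) : ContDiff ℝ N (sph κ b c) := by
  unfold sph
  have h1 : ContDiff ℝ N fun y : Vn n => ‖y‖ ^ 2 := contDiff_id.norm_sq ℝ
  have h2 : ContDiff ℝ N fun y : Vn n => ⟪b, y⟫ := contDiff_const.inner ℝ contDiff_id
  exact ((contDiff_const.mul h1).add h2).add contDiff_const

theorem sph_pos_sub (κ : ℝ) (b : Vn n) (c : ℝ) (ℓ : Qn n) (s s' : ℝ) :
    sph κ b c (pos s ℓ) - sph κ b c (pos s' ℓ) =
      (s - s') * (κ / 2 * (s + s') * ‖ℓ.2‖ ^ 2 + κ * ⟪ℓ.1, ℓ.2⟫ + ⟪b, ℓ.2⟫) := by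
  unfold sph pos
  rw [norm_add_sq_real, norm_add_sq_real, inner_add_right, inner_add_right, inner_smul_right,
    inner_smul_right, inner_smul_right, inner_smul_right, norm_smul, norm_smul, mul_pow, mul_pow,
    Real.norm_eq_abs, Real.norm_eq_abs, sq_abs, sq_abs]
  ring

theorem sph_slope_self (κ : ℝ) (b : Vn n) (ℓ : Qn n) (s : ℝ) :
    κ / 2 * (s + s) * ‖ℓ.2‖ ^ 2 + κ * ⟪ℓ.1, ℓ.2⟫ + ⟪b, ℓ.2⟫ = ⟪κ • pos s ℓ + b, ℓ.2⟫ := by
  unfold pos
  rw [inner_add_left, real_inner_smul_left, inner_add_left, real_inner_smul_left,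
    real_inner_self_eq_norm_sq]
  ring

theorem hasDerivAt_sph_along (κ : ℝ) (b : Vn n) (c : ℝ) (ℓ : Qn n) (s : ℝ) :
    HasDerivAt (fun s => sph κ b c (pos s ℓ)) ⟪κ • pos s ℓ + b, ℓ.2⟫ s := by
  have h1 : (fun s' => sph κ b c (pos s' ℓ)) = fun s' => sph κ b c (pos s ℓ) +
      (s' - s) * (κ / 2 * (s' + s) * ‖ℓ.2‖ ^ 2 + κ * ⟪ℓ.1, ℓ.2⟫ + ⟪b, ℓ.2⟫) := by
    funext s'
    rw [← sph_pos_sub]
    ring
  rw [h1, ← sph_slope_self]
  have h2 : HasDerivAt (fun s' : ℝ => s' - s) 1 s := (hasDerivAt_id s).sub_const s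
  have h3 : HasDerivAt (fun s' : ℝ => κ / 2 * (s' + s) * ‖ℓ.2‖ ^ 2 + κ * ⟪ℓ.1, ℓ.2⟫ + ⟪b, ℓ.2⟫)
      (κ / 2 * 1 * ‖ℓ.2‖ ^ 2) s :=
    (((((hasDerivAt_id s).add_const s).const_mul (κ / 2)).mul_const (‖ℓ.2‖ ^ 2)).add_const
      _).add_const _
  have h4 := (h2.fun_mul h3).const_add (sph κ b c (pos s ℓ))
  exact h4.congr_deriv (by ring)

/-- the hit time of a sphere or hyperplane: an analytic function of the state -/
theorem exists_hit_sph {κ : ℝ} {b : Vn n} {c : ℝ} {ℓ₀ : Qn n} {τ₀ : ℝ}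
    (h0 : sph κ b c (pos τ₀ ℓ₀) = 0) (ht : ⟪κ • pos τ₀ ℓ₀ + b, ℓ₀.2⟫ ≠ 0) :
    ∃ h : Qn n → ℝ, ContDiffAt ℝ ω h ℓ₀ ∧ h ℓ₀ = τ₀ ∧
      ∀ᶠ ℓ in 𝓝 ℓ₀, sph κ b c (pos (h ℓ) ℓ) = 0 := by
  set F : Qn n × ℝ → ℝ := fun u => sph κ b c (pos u.2 u.1) with hF
  have hFs : ContDiff ℝ ω F := (contDiff_sph κ b c).comp contDiff_pos
  have hF' : fderiv ℝ F (ℓ₀, τ₀) (0, 1) ≠ 0 := by
    have hd : DifferentiableAt ℝ F (ℓ₀, τ₀) := hFs.contDiffAt.differentiableAt (by simp)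
    have h1 : HasDerivAt (fun t : ℝ => ((ℓ₀, t) : Qn n × ℝ)) (0, 1) τ₀ :=
      (hasDerivAt_const τ₀ ℓ₀).prodMk (hasDerivAt_id τ₀)
    have h2 : HasDerivAt (fun t => F (ℓ₀, t)) (fderiv ℝ F (ℓ₀, τ₀) (0, 1)) τ₀ :=
      hd.hasFDerivAt.comp_hasDerivAt τ₀ h1
    rw [h2.unique (hasDerivAt_sph_along κ b c ℓ₀ τ₀)]
    exact ht
  obtain ⟨ψ, h1, h2, h3⟩ := implicit_at (N := ω) (by simp) hFs.contDiffAt hF'
  refine ⟨ψ, h1, h2, ?_⟩
  filter_upwards [h3] with ℓ hℓ
  have : F (ℓ, ψ ℓ) = 0 := by rw [hℓ]; exact h0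
  exact this

theorem rho_smul {c : ℝ} (hc : c ≠ 0) (w v : Vn n) : rho (c • w) v = rho w v := by
  unfold rho
  rcases eq_or_ne w 0 with hw | hw
  · simp [hw]
  · rw [norm_smul, real_inner_smul_right, smul_smul, mul_pow, Real.norm_eq_abs, sq_abs]
    congr 2
    have : ‖w‖ ≠ 0 := norm_ne_zero_iff.2 hw
    field_simp

theorem stepN_smul {c : ℝ} (hc : c ≠ 0) (w : Vn n) (τ : ℝ) (ℓ : Qn n) :
    stepN (c • w) τ ℓ = stepN w τ ℓ := by
  unfold stepN
  rw [rho_smul hc]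

theorem step_eq_unitNormal {f : Vn n → ℝ} {τ : ℝ} {ℓ : Qn n} (h : ∇ f (pos τ ℓ) ≠ 0) :
    step f τ ℓ = stepN (unitNormal f (pos τ ℓ)) τ ℓ := by
  unfold step unitNormal
  rw [stepN_smul (inv_ne_zero (norm_ne_zero_iff.2 h))]

/-- Comparison of the true path (`u`, hit time `τ`, unit normal `N`) with the path of a sphere
(`u'`, hit time `h`, normal `κ y + b`): one reflection. -/
theorem compare_step {p : Qn n} {u u' : Qn n → Qn n} {τ : Qn n → ℝ} {N : Qn n → Vn n}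
    {κ : ℝ} {b : Vn n} {c : ℝ} {h : Qn n → ℝ}
    (hu' : ContDiffAt ℝ ω u' p) (hu : ContinuousAt u p) (hup : u' p = u p)
    (hflat : Flat (fun q => u' q - u q) p)
    (hτ : ContinuousAt τ p) (hN : ContinuousAt N p) (hN0 : N p ≠ 0)
    (hh : ContDiffAt ℝ ω h (u p)) (hhp : h (u p) = τ p)
    (hhz : ∀ᶠ ℓ in 𝓝 (u p), sph κ b c (pos (h ℓ) ℓ) = 0)
    (ht : ⟪N p, (u p).2⟫ ≠ 0) (hNp : κ • pos (τ p) (u p) + b = N p)
    (hg : Flat (fun q => sph κ b c (pos (τ q) (u q))) p)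
    (hn : Flat (fun q => κ • pos (τ q) (u q) + b - N q) p) :
    ContDiffAt ℝ ω (fun q => stepN (κ • pos (h (u' q)) (u' q) + b) (h (u' q)) (u' q)) p ∧
    stepN (κ • pos (h (u' p)) (u' p) + b) (h (u' p)) (u' p) = stepN (N p) (τ p) (u p) ∧
    Flat (fun q => stepN (κ • pos (h (u' q)) (u' q) + b) (h (u' q)) (u' q) -
      stepN (N q) (τ q) (u q)) p ∧
    Flat (fun q => h (u' q) - τ q) p := by
  have hh' : ContDiffAt ℝ ω h (u' p) := by rwa [hup]
  have hhu : ContDiffAt ℝ ω (fun q => h (u' q)) p := ContDiffAt.comp p hh' hu'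
  have hposs : ∀ {N : WithTop ℕ∞} {a : Qn n} {t : ℝ},
      ContDiffAt ℝ N (fun v : Qn n × ℝ => pos v.2 v.1) (a, t) := contDiff_pos.contDiffAt
  have hpos' : ContDiffAt ℝ ω (fun q => pos (h (u' q)) (u' q)) p :=
    ContDiffAt.comp (g := fun v : Qn n × ℝ => pos v.2 v.1) p hposs (hu'.prodMk hhu)
  have hw' : ContDiffAt ℝ ω (fun q => κ • pos (h (u' q)) (u' q) + b) p :=
    (hpos'.const_smul κ).add contDiffAt_const
  have hval : κ • pos (h (u' p)) (u' p) + b = N p := by rw [hup, hhp, hNp]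
  have hval' : stepN (κ • pos (h (u' p)) (u' p) + b) (h (u' p)) (u' p) =
      stepN (N p) (τ p) (u p) := by
    rw [hval, hup, hhp]
  -- tendsto facts
  have tu' : Tendsto u' (𝓝 p) (𝓝 (u p)) := by
    have := hu'.continuousAt
    unfold ContinuousAt at this
    rwa [hup] at this
  have tu : Tendsto u (𝓝 p) (𝓝 (u p)) := hu
  -- (i)
  have f1 : Flat (fun q => h (u' q) - h (u q)) p :=
    Flat.comp_sub (hh.of_le le_top) tu' tu hflat
  -- (ii)
  set B : Qn n → ℝ := fun q => κ / 2 * (h (u q) + τ q) * ‖(u q).2‖ ^ 2 + κ * ⟪(u q).1, (u q).2⟫ +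
    ⟪b, (u q).2⟫ with hB
  have hhu1 : ContinuousAt (fun q => h (u q)) p :=
    ContinuousAt.comp (g := h) (f := u) hh.continuousAt hu
  have hBc : ContinuousAt B p := by
    have c1 : ContinuousAt (fun q => (u q).1) p := continuousAt_fst.comp hu
    have c2 : ContinuousAt (fun q => (u q).2) p := continuousAt_snd.comp hu
    have c3 : ContinuousAt (fun q => ⟪(u q).1, (u q).2⟫) p := c1.inner c2
    have c4 : ContinuousAt (fun q => ⟪b, (u q).2⟫) p := continuousAt_const.inner c2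
    exact ((((continuousAt_const.mul (hhu1.add hτ)).mul (c2.norm.pow 2)).add
      (continuousAt_const.mul c3)).add c4)
  have hBp : B p ≠ 0 := by
    have : B p = ⟪N p, (u p).2⟫ := by
      rw [hB]
      simp only
      rw [hhp, sph_slope_self, hNp]
    rw [this]
    exact ht
  have f2 : Flat (fun q => h (u q) - τ q) p := by
    have h1 : Flat (fun q => (-(B q)⁻¹) • sph κ b c (pos (τ q) (u q))) p :=
      Flat.smul ((hBc.inv₀ hBp).neg) hg
    refine h1.congr' ?_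
    filter_upwards [tu.eventually hhz, hBc.eventually_ne hBp] with q h2 h3
    have h4 := sph_pos_sub κ b c (u q) (h (u q)) (τ q)
    rw [h2] at h4
    have h5 : (h (u q) - τ q) * B q = -sph κ b c (pos (τ q) (u q)) := by
      rw [hB]
      simp only
      rw [← h4]
      ring
    rw [smul_eq_mul]
    field_simp
    linarith
  have f3 : Flat (fun q => h (u' q) - τ q) p := f1.trans_sub f2
  -- positions
  have f4 : Flat (fun q => pos (h (u' q)) (u' q) - pos (τ q) (u q)) p := by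
    refine Flat.comp_sub (Φ := fun v : Qn n × ℝ => pos v.2 v.1) (u := fun q => (u' q, h (u' q)))
      (w := fun q => (u q, τ q)) (z := (u p, τ p)) hposs ?_ ?_ ?_
    · have : Tendsto (fun q => h (u' q)) (𝓝 p) (𝓝 (τ p)) := by
        have := hhu.continuousAt.tendsto
        simp only [hup, hhp] at this
        exact this
      exact tu'.prodMk_nhds this
    · exact tu.prodMk_nhds hτ
    · exact hflat.prodMk f3
  have f5 : Flat (fun q => κ • pos (h (u' q)) (u' q) + b - N q) p := by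
    have h1 : Flat (fun q => κ • (pos (h (u' q)) (u' q) - pos (τ q) (u q))) p :=
      Flat.smul continuousAt_const f4
    refine (h1.add hn).congr' (Eventually.of_forall fun q => ?_)
    simp only [smul_sub]
    abel
  refine ⟨?_, hval', ?_, f3⟩
  · refine ContDiffAt.comp (g := fun v : Vn n × ℝ × Qn n => stepN v.1 v.2.1 v.2.2) p
      (contDiffAt_stepN ?_) (hw'.prodMk (hhu.prodMk hu'))
    simp only
    rw [hval]
    exact hN0
  · refine Flat.comp_sub (Φ := fun v : Vn n × ℝ × Qn n => stepN v.1 v.2.1 v.2.2)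
      (u := fun q => (κ • pos (h (u' q)) (u' q) + b, h (u' q), u' q))
      (w := fun q => (N q, τ q, u q)) (z := (N p, τ p, u p)) (contDiffAt_stepN hN0) ?_ ?_ ?_
    · have t1 : Tendsto (fun q => h (u' q)) (𝓝 p) (𝓝 (τ p)) := by
        have := hhu.continuousAt.tendsto
        simp only [hup, hhp] at this
        exact this
      have t2 : Tendsto (fun q => κ • pos (h (u' q)) (u' q) + b) (𝓝 p) (𝓝 (N p)) := by
        have := hw'.continuousAt.tendsto
        simp only [hval] at this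
        exact this
      exact t2.prodMk_nhds (t1.prodMk_nhds tu')
    · exact hN.tendsto.prodMk_nhds (hτ.tendsto.prodMk_nhds tu)
    · exact f5.prodMk (f3.prodMk hflat)

end InvC
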