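import Mathlib

/-!
Definitions for Theorem C (MP_38cb64_an): light rays and umbilic points.
-/

set_option autoImplicit false

namespace InvC

open Set Filter Topology MeasureTheory Asymptotics
open scoped RealInnerProductSpace ContDiff Gradient

variable {n : ℕ}

/-- `ℝⁿ` -/
abbrev Vn (n : ℕ) : Type := EuclideanSpace ℝ (Fin n)

/-- `ℝⁿ × ℝⁿ`, the pairs (point, direction) -/
abbrev Qn (n : ℕ) : Type := EuclideanSpace ℝ (Fin n) × EuclideanSpace ℝ (Fin n)

/-- `u` vanishes to infinite order at `p` -/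
def Flat {E F : Type*} [NormedAddCommGroup E] [NormedAddCommGroup F] (u : E → F) (p : E) : Prop :=
  ∀ m : ℕ, u =O[𝓝 p] fun q => ‖q - p‖ ^ m

/-- `f` is a local equation of the smooth hypersurface `S` in the open set `W` -/
structure LocalEq (S W : Set (Vn n)) (f : Vn n → ℝ) : Prop where
  isOpen : IsOpen W
  smooth : ContDiffOn ℝ ∞ f W
  regular : ∀ y ∈ W, ∇ f y ≠ 0
  zero : ∀ y ∈ W, (y ∈ S ↔ f y = 0)

/-- the field of unit normals of the level sets of `f` -/
noncomputable def unitNormal (f : Vn n → ℝ) (y : Vn n) : Vn n := ‖∇ f y‖⁻¹ • ∇ f y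

/-- the divergence of the field of unit normals: `n - 1` times the mean curvature -/
noncomputable def divNormal (f : Vn n → ℝ) (y : Vn n) : ℝ :=
  ∑ i, (fderiv ℝ (unitNormal f) y (EuclideanSpace.single i 1)) i

/-- near its point `a` the set `S` is a smooth hypersurface, `a` is an umbilic point of `S` (the
shape operator is a multiple of the identity), and if `n = 2` then the derivative of the curvature
of `S` is zero at `a`. -/
def Umbilic (S : Set (Vn n)) (a : Vn n) : Prop :=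
  a ∈ S ∧ (∃ W f, a ∈ W ∧ LocalEq S W f) ∧ ∀ W f, a ∈ W → LocalEq S W f →
    (∃ κ : ℝ, ∀ ξ, ⟪∇ f a, ξ⟫ = 0 → fderiv ℝ (unitNormal f) a ξ = κ • ξ) ∧
    (n = 2 → ∀ ξ, ⟪∇ f a, ξ⟫ = 0 → fderiv ℝ (divNormal f) a ξ = 0)

/-- the reflection of the direction `v` at a mirror with normal `w` -/
noncomputable def rho (w v : Vn n) : Vn n := v - (2 * ⟪v, w⟫ / ‖w‖ ^ 2) • w

/-- the position of the state `ℓ` at time `τ` -/
def pos (τ : ℝ) (ℓ : Qn n) : Vn n := ℓ.1 + τ • ℓ.2

/-- the state `ℓ = (x, v)` (position `x + t v` at time `t`) is reflected at time `τ` at a mirror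
with normal `w`; the new state -/
noncomputable def stepN (w : Vn n) (τ : ℝ) (ℓ : Qn n) : Qn n :=
  (pos τ ℓ - τ • rho w ℓ.2, rho w ℓ.2)

/-- the same, for the level set of `f` -/
noncomputable def step (f : Vn n → ℝ) (τ : ℝ) (ℓ : Qn n) : Qn n := stepN (∇ f (pos τ ℓ)) τ ℓ

/-- a smooth family of paths with `k` transversal reflections at `S`, parametrized by the states in
the open set `V`; `L i q` is the state after `i` reflections, `τ i q` the time of reflection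
number `i`. -/
structure Branch (S : Set (Vn n)) (V : Set (Qn n)) (k : ℕ) (W : ℕ → Set (Vn n))
    (f : ℕ → Vn n → ℝ) (L : ℕ → Qn n → Qn n) (τ : ℕ → Qn n → ℝ) : Prop where
  isOpen : IsOpen V
  eqn : ∀ i < k, LocalEq S (W i) (f i)
  start : ∀ q ∈ V, L 0 q = q
  smoothL : ∀ i ≤ k, ContDiffOn ℝ ∞ (L i) V
  smoothT : ∀ i < k, ContDiffOn ℝ ∞ (τ i) V
  mem : ∀ i < k, ∀ q ∈ V, pos (τ i q) (L i q) ∈ W i
  hit : ∀ i < k, ∀ q ∈ V, f i (pos (τ i q) (L i q)) = 0
  trans : ∀ i < k, ∀ q ∈ V, ⟪∇ (f i) (pos (τ i q) (L i q)), (L i q).2⟫ ≠ 0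
  next : ∀ i < k, ∀ q ∈ V, L (i + 1) q = step (f i) (τ i q) (L i q)

/-- `m` is a unit normal of the set `S` at its point `a` (as in `SphericalMirrors`) -/
def IsNormal (S : Set (Vn n)) (a m : Vn n) : Prop :=
  ‖m‖ = 1 ∧ a ∈ S ∧ tangentConeAt ℝ S a = {τ | ⟪m, τ⟫ = 0}

/-- the state `ℓ` is reflected at `S` at time `τ`; the new state is `ℓ'` -/
def Bounce (S : Set (Vn n)) (τ : ℝ) (ℓ ℓ' : Qn n) : Prop :=
  ∃ m, IsNormal S (pos τ ℓ) m ∧
    ℓ' = (pos τ ℓ - τ • (ℓ.2 - (2 * ⟪ℓ.2, m⟫) • m), ℓ.2 - (2 * ⟪ℓ.2, m⟫) • m)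

end InvC
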