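import Pool.Agent.Lib_helper32.InvC.Defs

/-!
Implicit functions and hit times.
-/

set_option autoImplicit false

namespace InvC

open Set Filter Topology MeasureTheory Asymptotics
open scoped RealInnerProductSpace ContDiff Gradient

section General

variable {E : Type*} [NormedAddCommGroup E] [NormedSpace ℝ E] [CompleteSpace E]

theorem isInvertible_of_ne_zero {A : ℝ →L[ℝ] ℝ} (h : A 1 ≠ 0) : A.IsInvertible := by
  refine ⟨ContinuousLinearEquiv.unitsEquivAut ℝ (Units.mk0 (A 1) h), ?_⟩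
  ext
  simp

theorem implicit_at {N : WithTop ℕ∞} (hN : N ≠ 0) {F : E × ℝ → ℝ} {u₀ : E × ℝ}
    (hF : ContDiffAt ℝ N F u₀) (hF' : fderiv ℝ F u₀ (0, 1) ≠ 0) :
    ∃ ψ : E → ℝ, ContDiffAt ℝ N ψ u₀.1 ∧ ψ u₀.1 = u₀.2 ∧
      ∀ᶠ x in 𝓝 u₀.1, F (x, ψ x) = F u₀ := by
  have h2 : (fderiv ℝ F u₀ ∘L .inr ℝ E ℝ).IsInvertible := by
    apply isInvertible_of_ne_zero
    simpa using hF'
  exact ⟨hF.implicitFunction hN h2, hF.contDiffAt_implicitFunction hN h2,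
    hF.implicitFunction_apply_self hN h2, hF.eventually_apply_implicitFunction hN h2⟩

/-- unique roots depend smoothly on the parameter -/
theorem unique_root_smooth {N : WithTop ℕ∞} (hN : N ≠ 0) {F : E × ℝ → ℝ} {D : Set (E × ℝ)}
    (hD : IsOpen D) (hF : ContDiffOn ℝ N F D) (hF' : ∀ u ∈ D, fderiv ℝ F u (0, 1) ≠ 0)
    (huniq : ∀ x s s', (x, s) ∈ D → (x, s') ∈ D → F (x, s) = 0 → F (x, s') = 0 → s = s') :
    IsOpen {x | ∃ s, (x, s) ∈ D ∧ F (x, s) = 0} ∧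
    ∃ h : E → ℝ, ContDiffOn ℝ N h {x | ∃ s, (x, s) ∈ D ∧ F (x, s) = 0} ∧
      ∀ x s, (x, s) ∈ D → F (x, s) = 0 → s = h x := by
  classical
  set Ω : Set E := {x | ∃ s, (x, s) ∈ D ∧ F (x, s) = 0} with hΩ
  set h : E → ℝ := fun x => if hx : ∃ s, (x, s) ∈ D ∧ F (x, s) = 0 then hx.choose else 0 with hh
  have huh : ∀ x s, (x, s) ∈ D → F (x, s) = 0 → s = h x := by
    intro x s h1 h2
    have hx : ∃ s, (x, s) ∈ D ∧ F (x, s) = 0 := ⟨s, h1, h2⟩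
    have h3 : h x = hx.choose := dif_pos hx
    rw [h3]
    exact huniq x s _ h1 hx.choose_spec.1 h2 hx.choose_spec.2
  have key : ∀ x₀ ∈ Ω, ∃ ψ : E → ℝ, ContDiffAt ℝ N ψ x₀ ∧
      ∀ᶠ x in 𝓝 x₀, (x, ψ x) ∈ D ∧ F (x, ψ x) = 0 := by
    rintro x₀ ⟨s₀, h1, h2⟩
    obtain ⟨ψ, hψ1, hψ2, hψ3⟩ := implicit_at hN (hF.contDiffAt (hD.mem_nhds h1)) (hF' _ h1)
    refine ⟨ψ, hψ1, ?_⟩
    have h3 : ∀ᶠ x in 𝓝 x₀, (x, ψ x) ∈ D := by
      have h4 : ContinuousAt (fun x => (x, ψ x)) x₀ := continuousAt_id.prodMk hψ1.continuousAt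
      apply h4.eventually_mem
      apply hD.mem_nhds
      simp only at hψ2
      rwa [hψ2]
    filter_upwards [h3, hψ3] with x h4 h5
    exact ⟨h4, by rw [h5, h2]⟩
  refine ⟨?_, h, ?_, huh⟩
  · rw [isOpen_iff_mem_nhds]
    intro x₀ hx₀
    obtain ⟨ψ, -, hψ⟩ := key x₀ hx₀
    filter_upwards [hψ] with x hx
    exact ⟨ψ x, hx⟩
  · intro x₀ hx₀
    obtain ⟨ψ, hψ1, hψ⟩ := key x₀ hx₀
    refine (hψ1.congr_of_eventuallyEq ?_).contDiffWithinAt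
    filter_upwards [hψ] with x hx
    exact (huh x _ hx.1 hx.2).symm

end General

variable {n : ℕ}

theorem contDiff_pos {N : WithTop ℕ∞} : ContDiff ℝ N fun u : Qn n × ℝ => pos u.2 u.1 := by
  unfold pos
  fun_prop

theorem hasFDerivAt_pos_right (ℓ : Qn n) (τ : ℝ) :
    HasFDerivAt (fun u : Qn n × ℝ => pos u.2 u.1)
      ((ContinuousLinearMap.fst ℝ (Vn n) (Vn n)).comp (ContinuousLinearMap.fst ℝ (Qn n) ℝ) +
        (τ • (ContinuousLinearMap.snd ℝ (Vn n) (Vn n)).comp (ContinuousLinearMap.fst ℝ (Qn n) ℝ) +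
          (ContinuousLinearMap.snd ℝ (Qn n) ℝ).smulRight ℓ.2)) (ℓ, τ) := by
  have h1 : HasFDerivAt (fun u : Qn n × ℝ => u.1.1)
      ((ContinuousLinearMap.fst ℝ (Vn n) (Vn n)).comp (ContinuousLinearMap.fst ℝ (Qn n) ℝ))
      (ℓ, τ) := ((ContinuousLinearMap.fst ℝ (Vn n) (Vn n)).comp
        (ContinuousLinearMap.fst ℝ (Qn n) ℝ)).hasFDerivAt
  have h2 : HasFDerivAt (fun u : Qn n × ℝ => u.1.2)
      ((ContinuousLinearMap.snd ℝ (Vn n) (Vn n)).comp (ContinuousLinearMap.fst ℝ (Qn n) ℝ))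
      (ℓ, τ) := ((ContinuousLinearMap.snd ℝ (Vn n) (Vn n)).comp
        (ContinuousLinearMap.fst ℝ (Qn n) ℝ)).hasFDerivAt
  have h3 : HasFDerivAt (fun u : Qn n × ℝ => u.2) (ContinuousLinearMap.snd ℝ (Qn n) ℝ) (ℓ, τ) :=
    (ContinuousLinearMap.snd ℝ (Qn n) ℝ).hasFDerivAt
  exact h1.add (h3.smul h2)

/-- the derivative in time of `g` along the ray -/
theorem fderiv_pos_time {g : Vn n → ℝ} {ℓ : Qn n} {τ : ℝ}
    (hg : DifferentiableAt ℝ g (pos τ ℓ)) :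
    fderiv ℝ (fun u : Qn n × ℝ => g (pos u.2 u.1)) (ℓ, τ) (0, 1) = ⟪∇ g (pos τ ℓ), ℓ.2⟫ := by
  have h1 : HasFDerivAt (fun u : Qn n × ℝ => g (pos u.2 u.1)) _ (ℓ, τ) :=
    HasFDerivAt.comp (g := g) (ℓ, τ) hg.hasFDerivAt (hasFDerivAt_pos_right ℓ τ)
  rw [h1.fderiv, inner_gradient_left]
  simp

end InvC
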