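import Pool.Agent.Lib_helper32.InvC.Compare
import Pool.Agent.Lib_helper37.InvWord

/-!
The path of a word of spheres and hyperplanes near one of its rays; it does not close up on an open
set.
-/

set_option autoImplicit false

namespace InvC

open Set Filter Topology MeasureTheory Asymptotics
open scoped RealInnerProductSpace ContDiff Gradient

variable {n : ℕ}

theorem norm_sq_normal {κ : ℝ} {b : Vn n} {c : ℝ} {y : Vn n} (hy : sph κ b c y = 0) :
    ‖κ • y + b‖ ^ 2 = ‖b‖ ^ 2 - 2 * κ * c := by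
  rw [norm_add_sq_real, norm_smul, mul_pow, Real.norm_eq_abs, sq_abs, real_inner_smul_left,
    real_inner_comm]
  unfold sph at hy
  have : c = -(κ / 2 * ‖y‖ ^ 2 + ⟪b, y⟫) := by linarith
  rw [this]
  ring

/-- the mirror with the equation `sph κ b c = 0` -/
noncomputable def mirOf (κ : ℝ) (b : Vn n) (c : ℝ) : Inv38.Mir n :=
  if κ = 0 then Sum.inr (b, -c) else Sum.inl (-(κ⁻¹ • b), |κ|⁻¹)

theorem mirOf_nondeg {κ : ℝ} {b : Vn n} {c : ℝ} (h : ‖b‖ ^ 2 - 2 * κ * c = 1) :
    (mirOf κ b c).Nondeg := by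
  unfold mirOf
  split_ifs with hκ
  · subst hκ
    have h1 : ‖b‖ ^ 2 = 1 := by linarith
    change ‖b‖ = 1
    have h2 := norm_nonneg b
    nlinarith
  · change 0 < |κ|⁻¹
    positivity

theorem mirOf_carrier {κ : ℝ} {b : Vn n} {c : ℝ} (h : ‖b‖ ^ 2 - 2 * κ * c = 1) {y : Vn n}
    (hy : sph κ b c y = 0) : y ∈ (mirOf κ b c).carrier ∧
      (mirOf κ b c).NormalAt y (κ • y + b) := by
  have h0 := norm_sq_normal hy
  rw [h] at h0
  have h1 : ‖κ • y + b‖ = 1 := by
    have h2 := norm_nonneg (κ • y + b)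
    nlinarith
  unfold mirOf
  split_ifs with hκ
  · subst hκ
    constructor
    · change ⟪b, y⟫ = -c
      unfold sph at hy
      linarith
    · left
      simp
  · have e1 : y - -(κ⁻¹ • b) = κ⁻¹ • (κ • y + b) := by
      rw [smul_add, smul_smul, inv_mul_cancel₀ hκ, one_smul]
      abel
    constructor
    · change ‖y - -(κ⁻¹ • b)‖ = |κ|⁻¹
      rw [e1, norm_smul, h1, norm_inv, Real.norm_eq_abs, mul_one]
    · change κ • y + b = (|κ|⁻¹)⁻¹ • (y - -(κ⁻¹ • b)) ∨
        κ • y + b = -((|κ|⁻¹)⁻¹ • (y - -(κ⁻¹ • b)))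
      rw [e1, inv_inv, smul_smul]
      rcases lt_or_gt_of_ne hκ with h2 | h2
      · right
        rw [abs_of_neg h2, neg_mul, mul_inv_cancel₀ hκ]
        module
      · left
        rw [abs_of_pos h2, mul_inv_cancel₀ hκ, one_smul]

theorem norm_normal_eq_one {κ : ℝ} {b : Vn n} {c : ℝ} (h : ‖b‖ ^ 2 - 2 * κ * c = 1) {y : Vn n}
    (hy : sph κ b c y = 0) : ‖κ • y + b‖ = 1 := by
  have h0 := norm_sq_normal hy
  rw [h] at h0
  have h2 := norm_nonneg (κ • y + b)
  nlinarith

/-- the path of a word of spheres given by the coefficients `κ i, b i` and the hit times `h i` -/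
noncomputable def wpath (κ : ℕ → ℝ) (b : ℕ → Vn n) (h : ℕ → Qn n → ℝ) : ℕ → Qn n → Qn n
  | 0 => fun q => q
  | i + 1 => fun q => stepN (κ i • pos (h i (wpath κ b h i q)) (wpath κ b h i q) + b i)
      (h i (wpath κ b h i q)) (wpath κ b h i q)

/-- if the path of a word of spheres closes up on a neighbourhood of `p` we have a
contradiction -/
theorem not_closing (hn : 2 ≤ n) {k : ℕ} (hk : 1 ≤ k) {κ c : ℕ → ℝ} {b : ℕ → Vn n}
    {h : ℕ → Qn n → ℝ} {p : Qn n} (hp : p.2 ≠ 0)
    (hunit : ∀ i < k, ‖b i‖ ^ 2 - 2 * κ i * c i = 1)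
    (hz : ∀ i < k, ∀ᶠ q in 𝓝 p, sph (κ i) (b i) (c i)
      (pos (h i (wpath κ b h i q)) (wpath κ b h i q)) = 0)
    (ht : ∀ i, i + 1 < k → ∀ᶠ q in 𝓝 p,
      h i (wpath κ b h i q) < h (i + 1) (wpath κ b h (i + 1) q))
    (h1 : ∀ᶠ q in 𝓝 p, (wpath κ b h k q).2 = q.2)
    (h2 : ∀ᶠ q in 𝓝 p, ∃ s : ℝ, (wpath κ b h k q).1 = q.1 + s • q.2) : False := by
  set μ : ℕ → Inv38.Mir n := fun i => mirOf (κ i) (b i) (c i) with hμ
  have hnull := Inv38.word_null hn k hk μ (fun i hi => mirOf_nondeg (hunit i hi))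
  have hz' : ∀ᶠ q in 𝓝 p, ∀ i < k, sph (κ i) (b i) (c i)
      (pos (h i (wpath κ b h i q)) (wpath κ b h i q)) = 0 := by
    have := (Filter.eventually_all_finset (Finset.range k)
      (p := fun i q => sph (κ i) (b i) (c i)
        (pos (h i (wpath κ b h i q)) (wpath κ b h i q)) = 0) (l := 𝓝 p)).2
      (fun i hi => hz i (Finset.mem_range.1 hi))
    filter_upwards [this] with q hq i hi using hq i (Finset.mem_range.2 hi)
  have ht' : ∀ᶠ q in 𝓝 p, ∀ i, i + 1 < k →
      h i (wpath κ b h i q) < h (i + 1) (wpath κ b h (i + 1) q) := by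
    have := (Filter.eventually_all_finset (Finset.range (k - 1))
      (p := fun i q => h i (wpath κ b h i q) < h (i + 1) (wpath κ b h (i + 1) q)) (l := 𝓝 p)).2
      (fun i hi => ht i (by have := Finset.mem_range.1 hi; omega))
    filter_upwards [this] with q hq i hi using hq i (Finset.mem_range.2 (by omega))
  have hp' : ∀ᶠ q : Qn n in 𝓝 p, q.2 ≠ 0 := continuousAt_snd.eventually_ne hp
  have hev : ∀ᶠ q in 𝓝 p, Inv38.WordPath k μ q.1 q.2 := by
    filter_upwards [hz', ht', h1, h2, hp'] with q e1 e2 e3 e4 e5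
    obtain ⟨s, hs⟩ := e4
    set u : ℕ → Qn n := fun i => wpath κ b h i q with hu
    set T : ℕ → ℝ := fun i => h i (u i) with hT
    set m : ℕ → Vn n := fun i => κ i • pos (T i) (u i) + b i with hm
    have hstep : ∀ i, u (i + 1) = stepN (m i) (T i) (u i) := fun i => rfl
    have hmn : ∀ i < k, ‖m i‖ = 1 := fun i hi => norm_normal_eq_one (hunit i hi) (e1 i hi)
    have hrho : ∀ i < k, (u (i + 1)).2 = (u i).2 - (2 * ⟪(u i).2, m i⟫) • m i := by
      intro i hi
      rw [hstep]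
      simp only [stepN, rho]
      rw [hmn i hi]
      simp
    have hfst : ∀ i, (u (i + 1)).1 = pos (T i) (u i) - T i • (u (i + 1)).2 := by
      intro i
      rw [hstep]
      rfl
    refine ⟨e5, fun i => pos (T i) (u i), fun i => (u i).2, m, fun i => T (i + 1) - T i,
      T 0, s + T (k - 1), rfl, e3, ?_, rfl, ?_, ?_⟩
    · intro i hi
      obtain ⟨f1, f2⟩ := mirOf_carrier (hunit i hi) (e1 i hi)
      exact ⟨f1, f2, hrho i hi⟩
    · intro i hi
      refine ⟨sub_pos.2 (e2 i hi), ?_⟩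
      change pos (T (i + 1)) (u (i + 1)) = pos (T i) (u i) + (T (i + 1) - T i) • (u (i + 1)).2
      have := hfst i
      have e : pos (T (i + 1)) (u (i + 1)) = (u (i + 1)).1 + T (i + 1) • (u (i + 1)).2 := rfl
      rw [e, this]
      module
    · have hk1 : k - 1 + 1 = k := by omega
      have h3 := hfst (k - 1)
      rw [hk1] at h3
      have h4 : (u k).1 = q.1 + s • q.2 := hs
      have h5 : (u k).2 = q.2 := e3
      rw [h4, h5] at h3
      change pos (T (k - 1)) (u (k - 1)) = q.1 + (s + T (k - 1)) • q.2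
      have h6 : pos (T (k - 1)) (u (k - 1)) = q.1 + s • q.2 + T (k - 1) • q.2 := by
        rw [h3]
        abel
      rw [h6]
      module
  have hmem : {q : Qn n | Inv38.WordPath k μ q.1 q.2} ∈ 𝓝 p := hev
  haveI : (volume : Measure (Qn n)).IsOpenPosMeasure := by
    change ((volume : Measure (EuclideanSpace ℝ (Fin n))).prod
      (volume : Measure (EuclideanSpace ℝ (Fin n)))).IsOpenPosMeasure
    infer_instance
  exact ((volume : Measure (Qn n)).measure_pos_of_mem_nhds hmem).ne' hnull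

end InvC
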