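import Pool.Agent.Lib_helper32.InvC.Compare

/-!
The coefficients of the osculating spheres along a smooth family of points of a hypersurface.
-/

set_option autoImplicit false

namespace InvC

open Set Filter Topology MeasureTheory Asymptotics
open scoped RealInnerProductSpace ContDiff Gradient

variable {n : ℕ}

theorem contDiffOn_unitNormal {W : Set (Vn n)} (hW : IsOpen W) {f : Vn n → ℝ}
    (hf : ContDiffOn ℝ ∞ f W) (hr : ∀ y ∈ W, ∇ f y ≠ 0) : ContDiffOn ℝ ∞ (unitNormal f) W := by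
  have h1 := contDiffOn_gradient hW hf
  unfold unitNormal
  exact ((h1.norm ℝ hr).inv fun y hy => norm_ne_zero_iff.2 (hr y hy)).smul h1

theorem contDiffOn_divNormal {W : Set (Vn n)} (hW : IsOpen W) {f : Vn n → ℝ}
    (hf : ContDiffOn ℝ ∞ f W) (hr : ∀ y ∈ W, ∇ f y ≠ 0) : ContDiffOn ℝ ∞ (divNormal f) W := by
  have h1 := contDiffOn_unitNormal hW hf hr
  have h2 : ContDiffOn ℝ ∞ (fderiv ℝ (unitNormal f)) W := h1.fderiv_of_isOpen hW (by simp)
  unfold divNormal
  refine ContDiffOn.sum fun i _ => ?_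
  have h3 : ContDiffOn ℝ ∞ (fun y => fderiv ℝ (unitNormal f) y (EuclideanSpace.single i 1)) W :=
    h2.clm_apply contDiffOn_const
  exact (EuclideanSpace.proj (𝕜 := ℝ) i).contDiff.comp_contDiffOn h3

theorem norm_unitNormal {f : Vn n → ℝ} {y : Vn n} (h : ∇ f y ≠ 0) : ‖unitNormal f y‖ = 1 := by
  unfold unitNormal
  rw [norm_smul, norm_inv, norm_norm]
  exact inv_mul_cancel₀ (norm_ne_zero_iff.2 h)

theorem inner_unitNormal_eq_zero {f : Vn n → ℝ} {y ξ : Vn n} (h : ⟪∇ f y, ξ⟫ = 0) :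
    ⟪unitNormal f y, ξ⟫ = 0 := by
  unfold unitNormal
  rw [real_inner_smul_left, h, mul_zero]

theorem inner_gradient_eq_zero {f : Vn n → ℝ} {y ξ : Vn n} (h0 : ∇ f y ≠ 0)
    (h : ⟪unitNormal f y, ξ⟫ = 0) : ⟪∇ f y, ξ⟫ = 0 := by
  unfold unitNormal at h
  rw [real_inner_smul_left] at h
  exact (mul_eq_zero.1 h).resolve_left (inv_ne_zero (norm_ne_zero_iff.2 h0))

/-- the derivative of the unit normal is orthogonal to the unit normal -/
theorem inner_fderiv_unitNormal {W : Set (Vn n)} (hW : IsOpen W) {f : Vn n → ℝ}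
    (hf : ContDiffOn ℝ ∞ f W) (hr : ∀ y ∈ W, ∇ f y ≠ 0) {a : Vn n} (ha : a ∈ W) (ξ : Vn n) :
    ⟪unitNormal f a, fderiv ℝ (unitNormal f) a ξ⟫ = 0 := by
  have hd : DifferentiableAt ℝ (unitNormal f) a :=
    ((contDiffOn_unitNormal hW hf hr).contDiffAt (hW.mem_nhds ha)).differentiableAt (by simp)
  have h1 : HasFDerivAt (fun y => ⟪unitNormal f y, unitNormal f y⟫) _ a :=
    hd.hasFDerivAt.inner ℝ hd.hasFDerivAt
  have h2 : HasFDerivAt (fun y => ⟪unitNormal f y, unitNormal f y⟫) (0 : Vn n →L[ℝ] ℝ) a := by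
    refine (hasFDerivAt_const (1 : ℝ) a).congr_of_eventuallyEq ?_
    filter_upwards [hW.mem_nhds ha] with y hy
    rw [real_inner_self_eq_norm_sq, norm_unitNormal (hr y hy), one_pow]
  have h3 := congrArg (fun A : Vn n →L[ℝ] ℝ => A ξ) (h1.unique h2)
  simp only [ContinuousLinearMap.comp_apply, ContinuousLinearMap.prod_apply,
    fderivInnerCLM_apply, ContinuousLinearMap.zero_apply] at h3
  rw [real_inner_comm (unitNormal f a) (fderiv ℝ (unitNormal f) a ξ)] at h3
  linarith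

/-- at an umbilic point the divergence of the normal is `(n - 1) κ` -/
theorem divNormal_of_umbilic {W : Set (Vn n)} (hW : IsOpen W) {f : Vn n → ℝ}
    (hf : ContDiffOn ℝ ∞ f W) (hr : ∀ y ∈ W, ∇ f y ≠ 0) {a : Vn n} (ha : a ∈ W) {κ : ℝ}
    (hκ : ∀ ξ, ⟪∇ f a, ξ⟫ = 0 → fderiv ℝ (unitNormal f) a ξ = κ • ξ) :
    divNormal f a = ((n : ℝ) - 1) * κ := by
  set ν := unitNormal f a with hν
  set A := fderiv ℝ (unitNormal f) a with hA
  have hν1 : ‖ν‖ = 1 := norm_unitNormal (hr a ha)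
  have h1 : ∀ ξ, A ξ = κ • (ξ - ⟪ν, ξ⟫ • ν) + ⟪ν, ξ⟫ • A ν := by
    intro ξ
    have h2 : ⟪∇ f a, ξ - ⟪ν, ξ⟫ • ν⟫ = 0 := by
      apply inner_gradient_eq_zero (hr a ha)
      rw [← hν, inner_sub_right, real_inner_smul_right, real_inner_self_eq_norm_sq, hν1]
      ring
    have h3 := hκ _ h2
    rw [map_sub, map_smul] at h3
    rw [← h3]
    abel
  have h4 : ∀ i, (A (EuclideanSpace.single i 1)) i = κ * (1 - ν i * ν i) + ν i * (A ν) i := by
    intro i
    have h5 : ⟪ν, EuclideanSpace.single i (1 : ℝ)⟫ = ν i := by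
      rw [real_inner_comm, EuclideanSpace.inner_single_left]
      simp
    rw [h1, h5]
    simp
  unfold divNormal
  rw [← hA]
  calc ∑ i, (A (EuclideanSpace.single i 1)) i
      = ∑ i, (κ * (1 - ν i * ν i) + ν i * (A ν) i) := Finset.sum_congr rfl fun i _ => h4 i
    _ = κ * ((n : ℝ) - ∑ i, ν i * ν i) + ∑ i, ν i * (A ν) i := by
        rw [Finset.sum_add_distrib, ← Finset.mul_sum, Finset.sum_sub_distrib]
        simp
    _ = ((n : ℝ) - 1) * κ := by
        have h6 : ∑ i, ν i * ν i = 1 := by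
          have h7 : ⟪ν, ν⟫ = ∑ i, ν i * ν i := by
            rw [PiLp.inner_apply]
            exact Finset.sum_congr rfl fun i _ => by simp [pow_two]
          rw [← h7, real_inner_self_eq_norm_sq, hν1, one_pow]
        have h8 : ∑ i, ν i * (A ν) i = 0 := by
          have h9 : ⟪ν, A ν⟫ = ∑ i, ν i * (A ν) i := by
            rw [PiLp.inner_apply]
            exact Finset.sum_congr rfl fun i _ => by simp [mul_comm]
          rw [← h9]
          exact inner_fderiv_unitNormal hW hf hr ha ν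
        rw [h6, h8]
        ring

section Along

variable {S W : Set (Vn n)} {f : Vn n → ℝ} {V : Set (Qn n)} {a : Qn n → Vn n}

/-- the coefficients of the osculating sphere `κ / 2 |y|² + ⟪b, y⟫ + c = 0` at the point `a q` -/
noncomputable def coef (f : Vn n → ℝ) (a : Qn n → Vn n) (q : Qn n) : ℝ × Vn n × ℝ :=
  (((n : ℝ) - 1)⁻¹ * divNormal f (a q),
    unitNormal f (a q) - (((n : ℝ) - 1)⁻¹ * divNormal f (a q)) • a q,
    (((n : ℝ) - 1)⁻¹ * divNormal f (a q)) / 2 * ‖a q‖ ^ 2 - ⟪unitNormal f (a q), a q⟫)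

theorem contDiffOn_coef (h : LocalEq S W f) (ha : ContDiffOn ℝ ∞ a V) (haW : ∀ q ∈ V, a q ∈ W) :
    ContDiffOn ℝ ∞ (coef f a) V := by
  have h1 : ContDiffOn ℝ ∞ (fun q => divNormal f (a q)) V :=
    (contDiffOn_divNormal h.isOpen h.smooth h.regular).comp ha haW
  have h2 : ContDiffOn ℝ ∞ (fun q => unitNormal f (a q)) V :=
    (contDiffOn_unitNormal h.isOpen h.smooth h.regular).comp ha haW
  have h3 : ContDiffOn ℝ ∞ (fun q => ((n : ℝ) - 1)⁻¹ * divNormal f (a q)) V :=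
    contDiffOn_const.mul h1
  have h4 : ContDiffOn ℝ ∞ (fun q => ‖a q‖ ^ 2) V := ha.norm_sq ℝ
  have h5 : ContDiffOn ℝ ∞ (fun q => ⟪unitNormal f (a q), a q⟫) V := h2.inner ℝ ha
  unfold coef
  exact h3.prodMk ((h2.sub (h3.smul ha)).prodMk (((h3.div_const 2).mul h4).sub h5))

/-- the osculating sphere passes through the point -/
theorem sph_coef_self (q : Qn n) :
    sph (coef f a q).1 (coef f a q).2.1 (coef f a q).2.2 (a q) = 0 := by
  unfold sph coef
  simp only
  rw [inner_sub_left, real_inner_smul_left, real_inner_self_eq_norm_sq]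
  ring

theorem normal_coef_self (q : Qn n) :
    (coef f a q).1 • a q + (coef f a q).2.1 = unitNormal f (a q) := by
  unfold coef
  simp

theorem inner_gradient_fderiv (h : LocalEq S W f) (hV : IsOpen V) (ha : ContDiffOn ℝ ∞ a V)
    (haW : ∀ q ∈ V, a q ∈ W) (ha0 : ∀ q ∈ V, f (a q) = 0) {q : Qn n} (hq : q ∈ V) (η : Qn n) :
    ⟪∇ f (a q), fderiv ℝ a q η⟫ = 0 := by
  have hda : DifferentiableAt ℝ a q :=
    (ha.contDiffAt (hV.mem_nhds hq)).differentiableAt (by simp)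
  have hdf : DifferentiableAt ℝ f (a q) :=
    (h.smooth.contDiffAt (h.isOpen.mem_nhds (haW q hq))).differentiableAt (by simp)
  have h1 : HasFDerivAt (fun q => f (a q)) ((fderiv ℝ f (a q)).comp (fderiv ℝ a q)) q :=
    hdf.hasFDerivAt.comp q hda.hasFDerivAt
  have h2 : HasFDerivAt (fun q => f (a q)) (0 : Qn n →L[ℝ] ℝ) q := by
    refine (hasFDerivAt_const (0 : ℝ) q).congr_of_eventuallyEq ?_
    filter_upwards [hV.mem_nhds hq] with y hy
    exact ha0 y hy
  have h3 := congrArg (fun A : Qn n →L[ℝ] ℝ => A η) (h1.unique h2)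
  rw [inner_gradient_left]
  exact h3

/-- at a point where the shape operator is a multiple of the identity `dN = κ da` -/
theorem fderiv_normal_of_shape (hn : 2 ≤ n) (h : LocalEq S W f) (hV : IsOpen V)
    (ha : ContDiffOn ℝ ∞ a V) (haW : ∀ q ∈ V, a q ∈ W) (ha0 : ∀ q ∈ V, f (a q) = 0)
    {q : Qn n} (hq : q ∈ V) (hu : ∃ κ : ℝ, ∀ ξ, ⟪∇ f (a q), ξ⟫ = 0 →
      fderiv ℝ (unitNormal f) (a q) ξ = κ • ξ) :
    fderiv ℝ (fun q => unitNormal f (a q)) q =
      (((n : ℝ) - 1)⁻¹ * divNormal f (a q)) • fderiv ℝ a q := by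
  obtain ⟨κ, hκ⟩ := hu
  have hdiv := divNormal_of_umbilic h.isOpen h.smooth h.regular (haW q hq) hκ
  have hn1 : (n : ℝ) - 1 ≠ 0 := by
    have : (2 : ℝ) ≤ n := by exact_mod_cast hn
    intro h0
    linarith
  have hda : DifferentiableAt ℝ a q :=
    (ha.contDiffAt (hV.mem_nhds hq)).differentiableAt (by simp)
  have hdN : DifferentiableAt ℝ (unitNormal f) (a q) :=
    ((contDiffOn_unitNormal h.isOpen h.smooth h.regular).contDiffAt
      (h.isOpen.mem_nhds (haW q hq))).differentiableAt (by simp)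
  have h1 : HasFDerivAt (fun q => unitNormal f (a q))
      ((fderiv ℝ (unitNormal f) (a q)).comp (fderiv ℝ a q)) q :=
    hdN.hasFDerivAt.comp q hda.hasFDerivAt
  rw [h1.fderiv, hdiv, inv_mul_cancel_left₀ hn1]
  refine ContinuousLinearMap.ext fun η => ?_
  exact hκ _ (inner_gradient_fderiv h hV ha haW ha0 hq η)

/-- at an umbilic point `dN = κ da` -/
theorem fderiv_normal_of_umbilic (hn : 2 ≤ n) (h : LocalEq S W f) (hV : IsOpen V)
    (ha : ContDiffOn ℝ ∞ a V) (haW : ∀ q ∈ V, a q ∈ W) (ha0 : ∀ q ∈ V, f (a q) = 0)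
    {q : Qn n} (hq : q ∈ V) (hu : Umbilic S (a q)) :
    fderiv ℝ (fun q => unitNormal f (a q)) q =
      (((n : ℝ) - 1)⁻¹ * divNormal f (a q)) • fderiv ℝ a q :=
  fderiv_normal_of_shape hn h hV ha haW ha0 hq (hu.2.2 W f (haW q hq) h).1

/-- `n = 2`: the curvature is stationary -/
theorem fderiv_curv_of_umbilic (hn : n = 2) (h : LocalEq S W f) (hV : IsOpen V)
    (ha : ContDiffOn ℝ ∞ a V) (haW : ∀ q ∈ V, a q ∈ W) (ha0 : ∀ q ∈ V, f (a q) = 0)
    {q : Qn n} (hq : q ∈ V) (hu : Umbilic S (a q)) :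
    fderiv ℝ (fun q => ((n : ℝ) - 1)⁻¹ * divNormal f (a q)) q = 0 := by
  have h0 := (hu.2.2 W f (haW q hq) h).2 hn
  have hda : DifferentiableAt ℝ a q :=
    (ha.contDiffAt (hV.mem_nhds hq)).differentiableAt (by simp)
  have hdN : DifferentiableAt ℝ (divNormal f) (a q) :=
    ((contDiffOn_divNormal h.isOpen h.smooth h.regular).contDiffAt
      (h.isOpen.mem_nhds (haW q hq))).differentiableAt (by simp)
  have h1 : HasFDerivAt (fun q => divNormal f (a q))
      ((fderiv ℝ (divNormal f) (a q)).comp (fderiv ℝ a q)) q :=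
    hdN.hasFDerivAt.comp q hda.hasFDerivAt
  rw [(h1.const_mul _).fderiv]
  refine ContinuousLinearMap.ext fun η => ?_
  have h2 : fderiv ℝ (divNormal f) (a q) (fderiv ℝ a q η) = 0 :=
    h0 _ (inner_gradient_fderiv h hV ha haW ha0 hq η)
  simp [h2]

/-- where `dN = κ da` and `dκ = 0`, the osculating sphere is stationary -/
theorem fderiv_coef_eq_zero (h : LocalEq S W f) (hV : IsOpen V)
    (ha : ContDiffOn ℝ ∞ a V) (haW : ∀ q ∈ V, a q ∈ W) (ha0 : ∀ q ∈ V, f (a q) = 0)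
    {q : Qn n} (hq : q ∈ V)
    (h1 : fderiv ℝ (fun q => unitNormal f (a q)) q =
      (((n : ℝ) - 1)⁻¹ * divNormal f (a q)) • fderiv ℝ a q)
    (h2 : fderiv ℝ (fun q => ((n : ℝ) - 1)⁻¹ * divNormal f (a q)) q = 0) :
    fderiv ℝ (coef f a) q = 0 := by
  have hda : DifferentiableAt ℝ a q :=
    (ha.contDiffAt (hV.mem_nhds hq)).differentiableAt (by simp)
  have hdN : DifferentiableAt ℝ (fun q => unitNormal f (a q)) q :=
    (((contDiffOn_unitNormal h.isOpen h.smooth h.regular).comp ha haW).contDiffAt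
      (hV.mem_nhds hq)).differentiableAt (by simp)
  have hdK : DifferentiableAt ℝ (fun q => ((n : ℝ) - 1)⁻¹ * divNormal f (a q)) q :=
    ((contDiffOn_const.mul
      ((contDiffOn_divNormal h.isOpen h.smooth h.regular).comp ha haW)).contDiffAt
      (hV.mem_nhds hq)).differentiableAt (by simp)
  have e1 := hdK.hasFDerivAt
  rw [h2] at e1
  have e2 := hdN.hasFDerivAt
  rw [h1] at e2
  have e3 := hda.hasFDerivAt
  have e4 := e2.sub (e1.smul e3)
  have e5 := (((e1.mul_const (2 : ℝ)⁻¹).mul (e3.inner ℝ e3))).sub (e2.inner ℝ e3)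
  have e6 := e1.prodMk (e4.prodMk e5)
  have e7 : coef f a = fun q => (((n : ℝ) - 1)⁻¹ * divNormal f (a q),
      unitNormal f (a q) - (((n : ℝ) - 1)⁻¹ * divNormal f (a q)) • a q,
      (((n : ℝ) - 1)⁻¹ * divNormal f (a q)) * 2⁻¹ * ⟪a q, a q⟫ - ⟪unitNormal f (a q), a q⟫) := by
    funext q
    unfold coef
    refine Prod.ext rfl (Prod.ext rfl ?_)
    simp only [real_inner_self_eq_norm_sq]
    ring
  have e8 := e6.fderiv
  rw [e7]
  refine (Eq.trans ?_ e8).trans ?_
  · rfl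
  refine ContinuousLinearMap.ext fun η => ?_
  have h3 : ⟪unitNormal f (a q), fderiv ℝ a q η⟫ = 0 :=
    inner_unitNormal_eq_zero (inner_gradient_fderiv h hV ha haW ha0 hq η)
  refine Prod.ext ?_ (Prod.ext ?_ ?_)
  · simp
  · simp
  · simp [h3, real_inner_smul_left, real_inner_comm (a q) (fderiv ℝ a q η)]
    ring

end Along

end InvC
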