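import Pool.Agent.Lib_helper32.InvC.Ae
import Pool.Agent.Lib_helper32.InvC.Umb
import Pool.Agent.Lib_helper32.InvC.Mirror
import Pool.Agent.Lib_helper86.InvC.Codazzi
import Pool.Agent.Lib_helper86.InvC.Rank

/-!
The main local theorem.
-/

set_option autoImplicit false

namespace InvC

open Set Filter Topology MeasureTheory Asymptotics
open scoped RealInnerProductSpace ContDiff Gradient

variable {n : ℕ}

/-- the part of the displacement of a line which is orthogonal to its direction -/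
noncomputable def perp (u : Qn n × Qn n) : Vn n :=
  (u.1.1 - u.2.1) - (⟪u.1.1 - u.2.1, u.2.2⟫ / ‖u.2.2‖ ^ 2) • u.2.2

theorem contDiffAt_perp {N : WithTop ℕ∞} {u : Qn n × Qn n} (hu : u.2.2 ≠ 0) :
    ContDiffAt ℝ N (perp (n := n)) u := by
  unfold perp
  have h1 : ContDiffAt ℝ N (fun u : Qn n × Qn n => u.1.1 - u.2.1) u := by fun_prop
  have h2 : ContDiffAt ℝ N (fun u : Qn n × Qn n => u.2.2) u := by fun_prop
  refine h1.sub (ContDiffAt.fun_smul (ContDiffAt.fun_div ?_ ?_ ?_) h2)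
  · exact h1.inner ℝ h2
  · exact h2.norm_sq ℝ
  · have : ‖u.2.2‖ ≠ 0 := norm_ne_zero_iff.2 hu
    positivity

theorem perp_eq_zero {ℓ q : Qn n} (h : perp (ℓ, q) = 0) : ∃ s : ℝ, ℓ.1 = q.1 + s • q.2 := by
  unfold perp at h
  simp only at h
  exact ⟨_, by rw [sub_eq_zero.1 h |> fun h => (sub_eq_iff_eq_add'.1 h)]⟩

theorem perp_of_line {ℓ q : Qn n} (hq : q.2 ≠ 0) {s : ℝ} (h : ℓ.1 = q.1 + s • q.2) :
    perp (ℓ, q) = 0 := by
  unfold perp
  simp only
  rw [h]
  have h1 : q.1 + s • q.2 - q.1 = s • q.2 := by abel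
  rw [h1, real_inner_smul_left, real_inner_self_eq_norm_sq]
  have h2 : ‖q.2‖ ^ 2 ≠ 0 := by
    have : ‖q.2‖ ≠ 0 := norm_ne_zero_iff.2 hq
    positivity
  rw [mul_div_assoc, div_self h2, mul_one, sub_self]

variable {S : Set (Vn n)} {V : Set (Qn n)} {k : ℕ} {W : ℕ → Set (Vn n)}
    {f : ℕ → Vn n → ℝ} {L : ℕ → Qn n → Qn n} {τ : ℕ → Qn n → ℝ}

/-- the reflection points -/
theorem Branch.smoothP (h : Branch S V k W f L τ) {i : ℕ} (hi : i < k) :
    ContDiffOn ℝ ∞ (fun q => pos (τ i q) (L i q)) V :=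
  (contDiff_pos (N := ∞)).comp_contDiffOn ((h.smoothL i hi.le).prodMk (h.smoothT i hi))

/-- At a point `p` where everything is flat we have a contradiction. -/
theorem flat_point (hn : 2 ≤ n) (hk : 1 ≤ k) (h : Branch S V k W f L τ) {p : Qn n} (hp : p ∈ V)
    (hp2 : p.2 ≠ 0)
    (hflat : ∀ i < k, Flat (fun q => coef (f i) (fun q => pos (τ i q) (L i q)) q -
      coef (f i) (fun q => pos (τ i q) (L i q)) p) p)
    (hτ : ∀ i, i + 1 < k → τ i p < τ (i + 1) p)
    (h1 : Flat (fun q => (L k q).2 - q.2) p) (h2 : Flat (fun q => perp (L k q, q)) p) : False := by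
  classical
  set A : ℕ → Qn n → Vn n := fun i q => pos (τ i q) (L i q) with hA
  set κ : ℕ → ℝ := fun i => (coef (f i) (A i) p).1 with hκ
  set b : ℕ → Vn n := fun i => (coef (f i) (A i) p).2.1 with hb
  set c : ℕ → ℝ := fun i => (coef (f i) (A i) p).2.2 with hc
  have hV := h.isOpen.mem_nhds hp
  have hsph0 : ∀ i, sph (κ i) (b i) (c i) (A i p) = 0 := fun i => sph_coef_self p
  have hnor0 : ∀ i, κ i • A i p + b i = unitNormal (f i) (A i p) := fun i => normal_coef_self p
  have hunit : ∀ i < k, ‖b i‖ ^ 2 - 2 * κ i * c i = 1 := by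
    intro i hi
    rw [← norm_sq_normal (hsph0 i), hnor0 i,
      norm_unitNormal ((h.eqn i hi).regular _ (h.mem i hi p hp)), one_pow]
  have htr : ∀ i < k, ⟪unitNormal (f i) (A i p), (L i p).2⟫ ≠ 0 := by
    intro i hi h0
    exact h.trans i hi p hp (inner_gradient_eq_zero ((h.eqn i hi).regular _ (h.mem i hi p hp)) h0)
  -- the hit times
  have hex : ∀ i, ∃ g : Qn n → ℝ, i < k → (ContDiffAt ℝ ω g (L i p) ∧ g (L i p) = τ i p ∧
      ∀ᶠ ℓ in 𝓝 (L i p), sph (κ i) (b i) (c i) (pos (g ℓ) ℓ) = 0) := by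
    intro i
    by_cases hi : i < k
    · obtain ⟨g, h1, h2, h3⟩ := exists_hit_sph (κ := κ i) (b := b i) (c := c i) (ℓ₀ := L i p)
        (τ₀ := τ i p) (hsph0 i) (by rw [hnor0 i]; exact htr i hi)
      exact ⟨g, fun _ => ⟨h1, h2, h3⟩⟩
    · exact ⟨fun _ => 0, fun h => absurd h hi⟩
  choose g hg using hex
  -- smoothness at p
  have cL : ∀ i ≤ k, ContDiffAt ℝ ∞ (L i) p := fun i hi => (h.smoothL i hi).contDiffAt hV
  have cT : ∀ i < k, ContDiffAt ℝ ∞ (τ i) p := fun i hi => (h.smoothT i hi).contDiffAt hV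
  have cA : ∀ i < k, ContDiffAt ℝ ∞ (A i) p := fun i hi => (h.smoothP hi).contDiffAt hV
  have cC : ∀ i < k, ContDiffAt ℝ ∞ (coef (f i) (A i)) p := fun i hi =>
    (contDiffOn_coef (h.eqn i hi) (h.smoothP hi) (h.mem i hi)).contDiffAt hV
  have cN : ∀ i < k, ContinuousAt (fun q => unitNormal (f i) (A i q)) p := fun i hi =>
    (((contDiffOn_unitNormal (h.eqn i hi).isOpen (h.eqn i hi).smooth (h.eqn i hi).regular).comp
      (h.smoothP hi) (h.mem i hi)).continuousOn.continuousAt hV)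
  -- the equation of the fixed sphere along the path is flat
  have fS : ∀ i < k, Flat (fun q => sph (κ i) (b i) (c i) (A i q)) p := by
    intro i hi
    set Φ : (ℝ × Vn n × ℝ) × Vn n → ℝ := fun u => sph u.1.1 u.1.2.1 u.1.2.2 u.2 with hΦ
    have hΦs : ContDiff ℝ 1 Φ := by
      rw [hΦ]
      unfold sph
      have e1 : ContDiff ℝ 1 fun u : (ℝ × Vn n × ℝ) × Vn n => ‖u.2‖ ^ 2 := contDiff_snd.norm_sq ℝ
      have e2 : ContDiff ℝ 1 fun u : (ℝ × Vn n × ℝ) × Vn n => ⟪u.1.2.1, u.2⟫ :=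
        ContDiff.inner ℝ (by fun_prop) contDiff_snd
      have e3 : ContDiff ℝ 1 fun u : (ℝ × Vn n × ℝ) × Vn n => u.1.1 / 2 := by fun_prop
      have e4 : ContDiff ℝ 1 fun u : (ℝ × Vn n × ℝ) × Vn n => u.1.2.2 := by fun_prop
      exact ((e3.mul e1).add e2).add e4
    have e1 : Flat (fun q => Φ (coef (f i) (A i) p, A i q) - Φ (coef (f i) (A i) q, A i q)) p := by
      refine Flat.comp_sub (Φ := Φ) (z := (coef (f i) (A i) p, A i p)) hΦs.contDiffAt
        (tendsto_const_nhds.prodMk_nhds (cA i hi).continuousAt)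
        ((cC i hi).continuousAt.tendsto.prodMk_nhds (cA i hi).continuousAt) ?_
      refine ((hflat i hi).neg.prodMk (w := fun _ => (0 : Vn n)) ?_).congr'
        (Eventually.of_forall fun q => ?_)
      · intro m
        exact isBigO_zero _ _
      · simp [hA]
    refine e1.congr' (Eventually.of_forall fun q => ?_)
    have e2 : Φ (coef (f i) (A i) q, A i q) = 0 := sph_coef_self q
    simp only [e2, sub_zero]
    rfl
  have fN : ∀ i < k, Flat (fun q => κ i • A i q + b i - unitNormal (f i) (A i q)) p := by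
    intro i hi
    set Φ : (ℝ × Vn n × ℝ) × Vn n → Vn n := fun u => u.1.1 • u.2 + u.1.2.1 with hΦ
    have hΦs : ContDiff ℝ 1 Φ := by
      rw [hΦ]
      have e1 : ContDiff ℝ 1 fun u : (ℝ × Vn n × ℝ) × Vn n => u.1.1 := by fun_prop
      have e2 : ContDiff ℝ 1 fun u : (ℝ × Vn n × ℝ) × Vn n => u.1.2.1 := by fun_prop
      exact (e1.smul contDiff_snd).add e2
    have e1 : Flat (fun q => Φ (coef (f i) (A i) p, A i q) - Φ (coef (f i) (A i) q, A i q)) p := by
      refine Flat.comp_sub (Φ := Φ) (z := (coef (f i) (A i) p, A i p)) hΦs.contDiffAt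
        (tendsto_const_nhds.prodMk_nhds (cA i hi).continuousAt)
        ((cC i hi).continuousAt.tendsto.prodMk_nhds (cA i hi).continuousAt) ?_
      refine ((hflat i hi).neg.prodMk (w := fun _ => (0 : Vn n)) ?_).congr'
        (Eventually.of_forall fun q => ?_)
      · intro m
        exact isBigO_zero _ _
      · simp [hA]
    refine e1.congr' (Eventually.of_forall fun q => ?_)
    have e2 : Φ (coef (f i) (A i) q, A i q) = unitNormal (f i) (A i q) := normal_coef_self q
    simp only [e2]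
    rfl
  -- the comparison
  have hstep : ∀ i < k, ∀ᶠ q in 𝓝 p,
      stepN (unitNormal (f i) (A i q)) (τ i q) (L i q) = L (i + 1) q := by
    intro i hi
    filter_upwards [hV] with q hq
    rw [h.next i hi q hq, step_eq_unitNormal ((h.eqn i hi).regular _ (h.mem i hi q hq))]
  have key : ∀ i ≤ k, ContDiffAt ℝ ω (wpath κ b g i) p ∧ wpath κ b g i p = L i p ∧
      Flat (fun q => wpath κ b g i q - L i q) p := by
    intro i
    induction i with
    | zero =>
      intro _
      refine ⟨contDiffAt_id, (h.start p hp).symm, ?_⟩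
      have : Flat (fun _ : Qn n => (0 : Qn n)) p := fun m => isBigO_zero _ _
      refine this.congr' ?_
      filter_upwards [hV] with q hq
      rw [h.start q hq]
      simp [wpath]
    | succ i ih =>
      intro hi
      have hi' : i < k := hi
      obtain ⟨k1, k2, k3⟩ := ih hi'.le
      obtain ⟨g1, g2, g3⟩ := hg i hi'
      obtain ⟨r1, r2, r3, -⟩ := compare_step (N := fun q => unitNormal (f i) (A i q))
        k1 (cL i hi'.le).continuousAt k2 k3 (cT i hi').continuousAt (cN i hi') (by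
          have := norm_unitNormal ((h.eqn i hi').regular _ (h.mem i hi' p hp))
          intro h0
          have h0' : unitNormal (f i) (pos (τ i p) (L i p)) = 0 := h0
          rw [h0', norm_zero] at this
          exact zero_ne_one this)
        g1 g2 g3 (htr i hi') (hnor0 i) (fS i hi') (fN i hi')
      have r4 := (hstep i hi').self_of_nhds
      refine ⟨r1, ?_, ?_⟩
      · exact r2.trans r4
      · refine r3.congr' ?_
        filter_upwards [hstep i hi'] with q hq
        rw [hq]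
        rfl
  -- the hit times of the spherical path
  have hcont : ∀ i < k, Tendsto (fun q => g i (wpath κ b g i q)) (𝓝 p) (𝓝 (τ i p)) := by
    intro i hi
    obtain ⟨k1, k2, -⟩ := key i hi.le
    obtain ⟨g1, g2, -⟩ := hg i hi
    have e1 : Tendsto (wpath κ b g i) (𝓝 p) (𝓝 (L i p)) := by
      have := k1.continuousAt.tendsto
      rwa [k2] at this
    have e2 : Tendsto (g i) (𝓝 (L i p)) (𝓝 (τ i p)) := by
      have := g1.continuousAt.tendsto
      rwa [g2] at this
    exact e2.comp e1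
  obtain ⟨k1, k2, k3⟩ := key k le_rfl
  refine not_closing hn hk (κ := κ) (c := c) (b := b) (h := g) hp2 hunit ?_ ?_ ?_ ?_
  · intro i hi
    obtain ⟨j1, j2, -⟩ := key i hi.le
    have e1 : Tendsto (wpath κ b g i) (𝓝 p) (𝓝 (L i p)) := by
      have := j1.continuousAt.tendsto
      rwa [j2] at this
    exact e1.eventually (hg i hi).2.2
  · intro i hi
    exact (hcont i (by omega)).eventually_lt (hcont (i + 1) hi) (hτ i hi)
  · -- the direction
    have e1 : Flat (fun q => (wpath κ b g k q).2 - q.2) p := by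
      have e2 : Flat (fun q => (wpath κ b g k q).2 - (L k q).2) p := by
        refine k3.of_le (C := 1) (Eventually.of_forall fun q => ?_)
        rw [one_mul, ← Prod.snd_sub]
        exact norm_snd_le _
      exact e2.trans_sub h1
    have e3 : AnalyticAt ℝ (fun q => (wpath κ b g k q).2 - q.2) p := by
      apply ContDiffAt.analyticAt
      exact (contDiffAt_snd.comp p k1).sub contDiffAt_snd
    filter_upwards [e1.eventually_eq_zero e3] with q hq
    exact sub_eq_zero.1 hq
  · -- the line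
    have e1 : Flat (fun q => perp (wpath κ b g k q, q)) p := by
      have e2 : Flat (fun q => perp (wpath κ b g k q, q) - perp (L k q, q)) p := by
        refine Flat.comp_sub (Φ := perp (n := n)) (z := (L k p, p)) (contDiffAt_perp hp2) ?_ ?_ ?_
        · have := k1.continuousAt.tendsto
          rw [k2] at this
          exact this.prodMk_nhds tendsto_id
        · exact (cL k le_rfl).continuousAt.tendsto.prodMk_nhds tendsto_id
        · refine (k3.prodMk (w := fun _ => (0 : Qn n)) (fun m => isBigO_zero _ _)).congr'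
            (Eventually.of_forall fun q => ?_)
          simp
      refine (e2.add h2).congr' (Eventually.of_forall fun q => ?_)
      simp
    have e3 : AnalyticAt ℝ (fun q => perp (wpath κ b g k q, q)) p := by
      apply ContDiffAt.analyticAt
      have e4 : ContDiffAt ℝ ω (perp (n := n)) (wpath κ b g k p, p) := contDiffAt_perp hp2
      exact ContDiffAt.comp (g := perp (n := n)) p e4 (k1.prodMk contDiffAt_id)
    filter_upwards [e1.eventually_eq_zero e3] with q hq
    exact perp_eq_zero hq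

/-- the main local theorem, in terms of the derivatives of normal and curvature along the branch -/
theorem local_null_along (hn : 2 ≤ n) {S : Set (Vn n)} {V : Set (Qn n)} {k : ℕ} (hk : 1 ≤ k)
    {W : ℕ → Set (Vn n)} {f : ℕ → Vn n → ℝ} {L : ℕ → Qn n → Qn n} {τ : ℕ → Qn n → ℝ}
    (h : Branch S V k W f L τ) :
    volume {q ∈ V | q.2 ≠ 0 ∧ (∀ i < k,
      fderiv ℝ (fun q => unitNormal (f i) (pos (τ i q) (L i q))) q =
        (((n : ℝ) - 1)⁻¹ * divNormal (f i) (pos (τ i q) (L i q))) •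
          fderiv ℝ (fun q => pos (τ i q) (L i q)) q ∧
      (n = 2 → fderiv ℝ (fun q => ((n : ℝ) - 1)⁻¹ *
        divNormal (f i) (pos (τ i q) (L i q))) q = 0)) ∧
      (∀ i, i + 1 < k → τ i q < τ (i + 1) q) ∧ (L k q).2 = q.2 ∧
      ∃ s : ℝ, (L k q).1 = q.1 + s • q.2} = 0 := by
  classical
  set A : ℕ → Qn n → Vn n := fun i q => pos (τ i q) (L i q) with hA
  have sA : ∀ i < k, ContDiffOn ℝ ∞ (A i) V := fun i hi => h.smoothP hi
  have sC : ∀ i < k, ContDiffOn ℝ ∞ (coef (f i) (A i)) V := fun i hi =>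
    contDiffOn_coef (h.eqn i hi) (sA i hi) (h.mem i hi)
  have sN : ∀ i < k, ContDiffOn ℝ ∞ (fun q => unitNormal (f i) (A i q)) V := fun i hi =>
    (contDiffOn_unitNormal (h.eqn i hi).isOpen (h.eqn i hi).smooth (h.eqn i hi).regular).comp
      (sA i hi) (h.mem i hi)
  have sK : ∀ i < k, ContDiffOn ℝ ∞ (fun q => ((n : ℝ) - 1)⁻¹ * divNormal (f i) (A i q)) V :=
    fun i hi => contDiffOn_const.mul
      ((contDiffOn_divNormal (h.eqn i hi).isOpen (h.eqn i hi).smooth (h.eqn i hi).regular).comp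
        (sA i hi) (h.mem i hi))
  -- the exceptional sets
  set B1 : ℕ → Set (Qn n) := fun i => {q ∈ V | fderiv ℝ (fun q => unitNormal (f i) (A i q)) q =
    (((n : ℝ) - 1)⁻¹ * divNormal (f i) (A i q)) • fderiv ℝ (A i) q ∧
    fderiv ℝ (fun q => ((n : ℝ) - 1)⁻¹ * divNormal (f i) (A i q)) q ≠ 0 ∧ 3 ≤ n} with hB1
  set B2 : ℕ → Set (Qn n) := fun i => {q ∈ V | fderiv ℝ (coef (f i) (A i)) q = 0 ∧
    ¬ Flat (fderiv ℝ (coef (f i) (A i))) q} with hB2
  set B3 : Set (Qn n) := {q ∈ V | (L k q).2 - q.2 = 0 ∧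
    ¬ Flat (fun q => (L k q).2 - q.2) q} with hB3
  set V₀ : Set (Qn n) := V ∩ {q | q.2 ≠ 0} with hV₀
  set B4 : Set (Qn n) := {q ∈ V₀ | perp (L k q, q) = 0 ∧
    ¬ Flat (fun q => perp (L k q, q)) q} with hB4
  have hV₀o : IsOpen V₀ := h.isOpen.inter (isOpen_ne_fun continuous_snd continuous_const)
  have n1 : ∀ i < k, volume (B1 i) = 0 := by
    intro i hi
    by_cases hn3 : 3 ≤ n
    · refine measure_mono_null ?_ (codazzi h.isOpen (sA i hi) (sN i hi) (sK i hi)
        (fun q hq => h.rank hn3 hi hq))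
      rintro q ⟨h1, h2, h3, -⟩
      exact ⟨h1, h2, h3⟩
    · convert measure_empty (μ := (volume : Measure (Qn n)))
      rw [eq_empty_iff_forall_notMem]
      rintro q ⟨-, -, -, h4⟩
      exact hn3 h4
  have n2 : ∀ i < k, volume (B2 i) = 0 := by
    intro i hi
    exact null_not_flat volume h.isOpen ((sC i hi).fderiv_of_isOpen h.isOpen (by simp))
  have n3 : volume B3 = 0 :=
    null_not_flat volume h.isOpen
      ((contDiff_snd.comp_contDiffOn (h.smoothL k le_rfl)).sub contDiffOn_snd)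
  have n4 : volume B4 = 0 := by
    refine null_not_flat volume hV₀o ?_
    intro q hq
    have e4 : ContDiffAt ℝ ∞ (perp (n := n)) (L k q, q) := contDiffAt_perp hq.2
    exact (ContDiffAt.comp (g := perp (n := n)) (f := fun q => (L k q, q)) q e4
      (((h.smoothL k le_rfl).contDiffAt (h.isOpen.mem_nhds hq.1)).prodMk
        contDiffAt_id)).contDiffWithinAt
  have n5 : volume ((⋃ i ∈ Set.Iio k, (B1 i ∪ B2 i)) ∪ (B3 ∪ B4)) = 0 := by
    refine measure_union_null ?_ (measure_union_null n3 n4)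
    rw [measure_biUnion_null_iff (Set.finite_Iio k).countable]
    intro i hi
    exact measure_union_null (n1 i hi) (n2 i hi)
  refine measure_mono_null ?_ n5
  rintro q ⟨hq, hq2, hu, ht, h1, s, h2⟩
  by_contra hcon
  simp only [mem_union, mem_iUnion, not_or, not_exists, Set.mem_Iio] at hcon
  obtain ⟨hc1, hc3, hc4⟩ := hcon
  refine flat_point hn hk h hq hq2 ?_ ht ?_ ?_
  · intro i hi
    have hN := (hu i hi).1
    have hK : fderiv ℝ (fun q => ((n : ℝ) - 1)⁻¹ * divNormal (f i) (A i q)) q = 0 := by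
      rcases Nat.lt_or_ge 2 n with h3 | h3
      · by_contra h0
        exact (hc1 i hi).1 ⟨hq, hN, h0, h3⟩
      · exact (hu i hi).2 (le_antisymm h3 hn)
    have hC := fderiv_coef_eq_zero (h.eqn i hi) h.isOpen (sA i hi) (h.mem i hi)
      (h.hit i hi) hq hN hK
    have hF : Flat (fderiv ℝ (coef (f i) (A i))) q := by
      by_contra h0
      exact (hc1 i hi).2 ⟨hq, hC, h0⟩
    refine Flat.of_fderiv ?_ hF
    filter_upwards [h.isOpen.mem_nhds hq] with y hy
    exact ((sC i hi).contDiffAt (h.isOpen.mem_nhds hy)).differentiableAt (by simp)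
  · by_contra h0
    exact hc3 ⟨hq, sub_eq_zero.2 h1, h0⟩
  · by_contra h0
    exact hc4 ⟨⟨hq, hq2⟩, perp_of_line hq2 h2, h0⟩

/-- PART M: the main local theorem -/
theorem local_null (hn : 2 ≤ n) {S : Set (Vn n)} {V : Set (Qn n)} {k : ℕ} (hk : 1 ≤ k)
    {W : ℕ → Set (Vn n)} {f : ℕ → Vn n → ℝ} {L : ℕ → Qn n → Qn n} {τ : ℕ → Qn n → ℝ}
    (h : Branch S V k W f L τ) :
    volume {q ∈ V | q.2 ≠ 0 ∧ (∀ i < k, Umbilic S (pos (τ i q) (L i q))) ∧
      (∀ i, i + 1 < k → τ i q < τ (i + 1) q) ∧ (L k q).2 = q.2 ∧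
      ∃ s : ℝ, (L k q).1 = q.1 + s • q.2} = 0 := by
  refine measure_mono_null ?_ (local_null_along hn hk h)
  rintro q ⟨hq, hq2, hu, ht, h1, h2⟩
  refine ⟨hq, hq2, fun i hi => ⟨?_, fun hn2 => ?_⟩, ht, h1, h2⟩
  · exact fderiv_normal_of_umbilic hn (h.eqn i hi) h.isOpen (h.smoothP hi) (h.mem i hi)
      (h.hit i hi) hq (hu i hi)
  · exact fderiv_curv_of_umbilic hn2 (h.eqn i hi) h.isOpen (h.smoothP hi)
      (h.mem i hi) (h.hit i hi) hq (hu i hi)

/-- the main local theorem for `n ≥ 3`, in terms of the shape operators of the equations of the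
branch -/
theorem local_null_shape (hn : 3 ≤ n) {S : Set (Vn n)} {V : Set (Qn n)} {k : ℕ} (hk : 1 ≤ k)
    {W : ℕ → Set (Vn n)} {f : ℕ → Vn n → ℝ} {L : ℕ → Qn n → Qn n} {τ : ℕ → Qn n → ℝ}
    (h : Branch S V k W f L τ) :
    volume {q ∈ V | q.2 ≠ 0 ∧ (∀ i < k, ∃ κ : ℝ, ∀ ξ, ⟪∇ (f i) (pos (τ i q) (L i q)), ξ⟫ = 0 →
        fderiv ℝ (unitNormal (f i)) (pos (τ i q) (L i q)) ξ = κ • ξ) ∧
      (∀ i, i + 1 < k → τ i q < τ (i + 1) q) ∧ (L k q).2 = q.2 ∧
      ∃ s : ℝ, (L k q).1 = q.1 + s • q.2} = 0 := by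
  refine measure_mono_null ?_ (local_null_along (by omega) hk h)
  rintro q ⟨hq, hq2, hu, ht, h1, h2⟩
  refine ⟨hq, hq2, fun i hi => ⟨?_, fun hn2 => by omega⟩, ht, h1, h2⟩
  exact fderiv_normal_of_shape (by omega) (h.eqn i hi) h.isOpen (h.smoothP hi) (h.mem i hi)
    (h.hit i hi) hq (hu i hi)

end InvC
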